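import Pool.Agent.N929.AC.Stm

/-!
# Inequalities for the comparison point, with a lower bound for the base (after N288/AC/ANG)
-/

set_option autoImplicit false

namespace Run7.h106.AC

open Pool.Agent.N929.AC

theorem cs_abs (s : ℕ) (z : ℂ) : |cs s z| ≤ 1 := by
  unfold cs
  rw [abs_div, abs_of_nonneg (pow_nonneg (norm_nonneg z) s), ← norm_pow]
  exact div_le_one_of_le₀ (Complex.abs_re_le_norm _) (norm_nonneg _)

theorem ang2 (μ c₀ : ℝ) (s : ℕ) (hμ : 1 ≤ μ) (hc₀ : 0 < c₀) (hs : 1 ≤ s) :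
    ∃ k : ℝ, 0 < k ∧ ∃ c₁ : ℝ, 0 < c₁ ∧
    ∀ c : ℝ, 0 < c → c ≤ c₁ → ∀ z ∈ Om c μ s, 0 < xx c μ s z ∧ (xx c μ s z < ‖z‖ →
      ‖z‖ ≤ xx c μ s z * Real.exp (c₀ * (k * (1 - cs s z))) ∧
      ‖1 + z ^ s‖ ≤ (1 + xx c μ s z ^ s) * Real.exp (-(k * (1 - cs s z))) ∧
      1 ≤ (1 + xx c μ s z ^ s) * Real.exp (-(k * (1 - cs s z)))) := by
  have hμ0 : 0 < μ := by linarith
  have hs0 : (0 : ℝ) < s := by exact_mod_cast hs
  obtain ⟨k, hk⟩ : ∃ k : ℝ, k = ((2 * μ) ^ s)⁻¹ / (2 * (1 + 2 ^ s) ^ 2) := ⟨_, rfl⟩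
  have hk0 : 0 < k := by rw [hk]; positivity
  refine ⟨k, hk0, min (1 / 4) (min (c₀ * k / 4) (k / (4 * s))), by positivity, ?_⟩
  intro c hc hc1 z hz
  have hca : c ≤ 1 / 4 := hc1.trans (min_le_left _ _)
  have hcb : 4 * c ≤ c₀ * k := by
    have := hc1.trans ((min_le_right _ _).trans (min_le_left _ _))
    linarith
  have hcc : 4 * s * c ≤ k := by
    have := hc1.trans ((min_le_right _ _).trans (min_le_right _ _))
    rw [le_div_iff₀ (by positivity)] at this
    linarith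
  have habs := abs_le.1 (cs_abs s z)
  obtain ⟨u, hu⟩ : ∃ u, u = 1 - cs s z := ⟨_, rfl⟩
  have hu0 : 0 ≤ u := by rw [hu]; linarith [habs.2]
  have hu2 : u ≤ 2 := by rw [hu]; linarith [habs.1]
  have hcu : c * u ≤ 1 / 2 := by nlinarith
  have hcu0 : 0 ≤ c * u := mul_nonneg hc.le hu0
  have hz' : μ * ‖z‖ < 1 + c * u := by
    rw [hu]
    exact hz
  rw [← hu]
  obtain ⟨x, hx⟩ : ∃ x, x = xx c μ s z := ⟨_, rfl⟩
  have hx' : x = (1 - c * u) / μ := by rw [hx, hu]; rfl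
  rw [← hx]
  have hx1 : (2 * μ)⁻¹ ≤ x := by
    rw [hx', le_div_iff₀ hμ0]
    have : (2 * μ)⁻¹ * μ = 1 / 2 := by field_simp
    rw [this]
    linarith
  have hx0 : 0 < x := lt_of_lt_of_le (by positivity) hx1
  refine ⟨hx0, fun hxz => ?_⟩
  have hz1 : ‖z‖ ≤ x * Real.exp (4 * (c * u)) := by
    have h1 : ‖z‖ ≤ (1 + c * u) / μ := by
      rw [le_div_iff₀ hμ0]
      linarith
    have h2 : 1 + c * u ≤ (1 - c * u) * Real.exp (4 * (c * u)) := by
      have h3 := Real.add_one_le_exp (4 * (c * u))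
      have h4 : (1 - c * u) * (4 * (c * u) + 1) ≤ (1 - c * u) * Real.exp (4 * (c * u)) :=
        mul_le_mul_of_nonneg_left h3 (by linarith)
      nlinarith
    calc ‖z‖ ≤ (1 + c * u) / μ := h1
      _ ≤ ((1 - c * u) * Real.exp (4 * (c * u))) / μ := by gcongr
      _ = x * Real.exp (4 * (c * u)) := by rw [hx']; ring
  have hlow : 1 ≤ (1 + x ^ s) * Real.exp (-(k * u)) := by
    obtain ⟨a, ha⟩ : ∃ a : ℝ, a = ((2 * μ) ^ s)⁻¹ := ⟨_, rfl⟩
    have ha0 : 0 < a := by rw [ha]; positivity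
    have ha1 : a ≤ 1 := by
      rw [ha]
      exact inv_le_one_of_one_le₀ (one_le_pow₀ (by linarith))
    have hax : a ≤ x ^ s := by
      rw [ha, ← inv_pow]
      exact pow_le_pow_left₀ (by positivity) hx1 s
    have h2s : (1 : ℝ) ≤ 2 ^ s := one_le_pow₀ (by norm_num)
    have hk8 : 8 * k ≤ a := by
      rw [hk, ← ha]
      have h4 : (4 : ℝ) ≤ (1 + 2 ^ s) ^ 2 := by nlinarith
      rw [← mul_div_assoc, div_le_iff₀ (by positivity)]
      nlinarith
    have h5 := Real.add_one_le_exp (-(k * u))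
    have h6 : 1 - 2 * k ≤ Real.exp (-(k * u)) := by nlinarith
    have h7 : 0 ≤ 1 - 2 * k := by linarith
    calc (1 : ℝ) ≤ (1 + a) * (1 - 2 * k) := by nlinarith
      _ ≤ (1 + x ^ s) * Real.exp (-(k * u)) := by
          apply mul_le_mul (by linarith) h6 h7 (by positivity)
  refine ⟨hz1.trans ?_, ?_, hlow⟩
  · apply mul_le_mul_of_nonneg_left _ hx0.le
    apply Real.exp_le_exp.2
    nlinarith
  · have hz0 : 0 < ‖z‖ := hx0.trans hxz
    obtain ⟨y, hy⟩ : ∃ y, y = ‖z‖ ^ s := ⟨_, rfl⟩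
    have hy0 : 0 < y := by rw [hy]; positivity
    have hre : (z ^ s).re = y * (1 - u) := by
      rw [hu, hy]
      unfold cs
      field_simp
      ring
    have hsq : ‖1 + z ^ s‖ ^ 2 = (1 + y) ^ 2 - 2 * y * u := by
      have h1 : ‖z ^ s‖ ^ 2 = y ^ 2 := by rw [norm_pow, hy]
      rw [Complex.sq_norm, Complex.normSq_apply] at h1 ⊢
      rw [Complex.add_re, Complex.add_im, Complex.one_re, Complex.one_im]
      rw [hre] at h1 ⊢
      linear_combination h1
    have h2 : ‖1 + z ^ s‖ ≤ (1 + y) * Real.exp (-(y * u / (1 + y) ^ 2)) := by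
      rw [← pow_le_pow_iff_left₀ (norm_nonneg _) (by positivity) two_ne_zero, hsq, mul_pow,
        ← Real.exp_nat_mul]
      have h3 := Real.add_one_le_exp (((2 : ℕ) : ℝ) * (-(y * u / (1 + y) ^ 2)))
      have h4 : (1 + y) ^ 2 * ((((2 : ℕ) : ℝ) * (-(y * u / (1 + y) ^ 2))) + 1) =
          (1 + y) ^ 2 - 2 * y * u := by
        push_cast
        field_simp
        ring
      rw [← h4]
      exact mul_le_mul_of_nonneg_left h3 (by positivity)
    have h3 : 1 + y ≤ (1 + x ^ s) * Real.exp (s * (4 * (c * u))) := by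
      have h4 : y ≤ x ^ s * Real.exp (s * (4 * (c * u))) := by
        rw [hy, Real.exp_nat_mul, ← mul_pow]
        exact pow_le_pow_left₀ hz0.le hz1 s
      have h5 : 1 ≤ Real.exp (s * (4 * (c * u))) := Real.one_le_exp (by positivity)
      nlinarith
    have h4 : ((2 * μ) ^ s)⁻¹ ≤ y := by
      rw [hy, ← inv_pow]
      exact pow_le_pow_left₀ (by positivity) (hx1.trans hxz.le) s
    have h5 : y ≤ 2 ^ s := by
      rw [hy]
      apply pow_le_pow_left₀ hz0.le
      nlinarith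
    have h6 : k + 4 * s * c ≤ y / (1 + y) ^ 2 := by
      have h7 : 2 * k ≤ y / (1 + y) ^ 2 := by
        have h8 : 2 * k = ((2 * μ) ^ s)⁻¹ / (1 + 2 ^ s) ^ 2 := by
          rw [hk]
          field_simp
        rw [h8]
        gcongr
      linarith
    calc ‖1 + z ^ s‖ ≤ (1 + y) * Real.exp (-(y * u / (1 + y) ^ 2)) := h2
      _ ≤ ((1 + x ^ s) * Real.exp (s * (4 * (c * u)))) * Real.exp (-((k + 4 * s * c) * u)) := by
          apply mul_le_mul h3 _ (Real.exp_nonneg _) (by positivity)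
          apply Real.exp_le_exp.2
          have : (k + 4 * s * c) * u ≤ y / (1 + y) ^ 2 * u := mul_le_mul_of_nonneg_right h6 hu0
          rw [div_mul_eq_mul_div] at this
          linarith
      _ = (1 + x ^ s) * Real.exp (-(k * u)) := by
          rw [mul_assoc, ← Real.exp_add]
          congr 2
          ring

end Run7.h106.AC
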