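import Pool.Agent.N929.AC.Stm
import Pool.Agent.N929.EZ.Area

/-!
# Analytic continuation for functionals that depend on the occupied slots (walks of `ℤ²`)
-/

set_option autoImplicit false
set_option linter.unusedVariables false

namespace Run7.h106.AC

open Pool.Agent.H976R2 Pool.Agent.H976R2.Dir Finset Filter Topology
open Pool.Agent.N929.EX Pool.Agent.N929.EY Pool.Agent.N929.EZ
open scoped Classical

noncomputable section

/-- the weighted number of walks with `n` steps -/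
def az (F : List Dir → ℝ) (n : ℕ) : ℝ := ∑ w ∈ SW n, F w

/-- the walks with at most `N` steps without occupied slots -/
def Cz (L : Finset (ℤ × ℤ)) (N : ℕ) : Finset (List Dir) :=
  ((range (N + 1)).biUnion SW).filter (fun w => Oc L 0 0 w = ∅)

/-- the generating function of the walks of the classes of `Cz` -/
def PZ (fl : List Dir → Finset (ℤ × ℤ) → List Dir) (F : List Dir → ℝ) (L : Finset (ℤ × ℤ))
    (N : ℕ) (z : ℂ) : ℂ :=
  ∑ w ∈ Cz L N, ∑ U ∈ (Sl L 0 0 w).powerset, (F (fl w U) : ℂ) * z ^ (w.length + 2 * U.card)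

/-- the walks of the classes of `Cz` -/
def TZ (fl : List Dir → Finset (ℤ × ℤ) → List Dir) (L : Finset (ℤ × ℤ)) (N : ℕ) :
    Finset (List Dir) :=
  ((Cz L N).sigma (fun w => (Sl L 0 0 w).powerset)).image (fun x => fl x.1 x.2)

variable {L : Finset (ℤ × ℤ)} {st : List Dir → List Dir}
  {fl : List Dir → Finset (ℤ × ℤ) → List Dir} {N : ℕ}

theorem len_SW {n : ℕ} {w : List Dir} (h : w ∈ SW n) : w.length = n := (mem_SW.1 h).1

theorem mem_Cz {w : List Dir} : w ∈ Cz L N ↔ Em L 0 0 w ∧ w.length ≤ N := by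
  unfold Cz Em
  rw [mem_filter, mem_biUnion]
  constructor
  · rintro ⟨⟨n, hn, hw⟩, ho⟩
    have h1 := len_SW hw
    rw [mem_range] at hn
    refine ⟨⟨by omega, by rw [h1]; exact hw, ho⟩, by omega⟩
  · rintro ⟨⟨_, hw, ho⟩, hN⟩
    exact ⟨⟨w.length, by rw [mem_range]; omega, hw⟩, ho⟩

theorem TZ_mem (h : Fill L 0 0 st fl) {v : List Dir} (hv : v ∈ TZ fl L N) : v ∈ SW v.length := by
  unfold TZ at hv
  rw [mem_image] at hv
  obtain ⟨⟨w, U⟩, hx, rfl⟩ := hv
  rw [mem_sigma, mem_powerset] at hx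
  simp only at hx ⊢
  have hw := (mem_Cz.1 hx.1).1
  rw [h.fl_len w U hw hx.2]
  exact h.fl_sw w U hw hx.2

theorem TZ_sub (h : Fill L 0 0 st fl) {n : ℕ} (hn : n ≤ N) : SW n ⊆ TZ fl L N := by
  intro v hv
  have h0 := len_SW hv
  have hv' : v ∈ SW v.length := by rw [h0]; exact hv
  unfold TZ
  rw [mem_image]
  refine ⟨⟨st v, Oc L 0 0 v⟩, ?_, h.fl_st v (by omega) hv'⟩
  rw [mem_sigma, mem_powerset]
  simp only
  refine ⟨mem_Cz.2 ⟨h.st_em v (by omega) hv', ?_⟩, ?_⟩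
  · have := h.st_len v (by omega) hv'
    omega
  · rw [h.st_sl v (by omega) hv']
    unfold Sl Oc
    exact OO_sub'

theorem sumTZ (h : Fill L 0 0 st fl) {R : Type} [AddCommMonoid R] (g : List Dir → R) :
    ∑ v ∈ TZ fl L N, g v = ∑ w ∈ Cz L N, ∑ U ∈ (Sl L 0 0 w).powerset, g (fl w U) := by
  unfold TZ
  rw [sum_image]
  · rw [sum_sigma]
  · rintro ⟨w, U⟩ hx ⟨w', U'⟩ hx' hxx
    rw [mem_coe, mem_sigma, mem_powerset] at hx hx'
    simp only at hx hx' hxx
    have hw := (mem_Cz.1 hx.1).1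
    have hw' := (mem_Cz.1 hx'.1).1
    have e1 : w = w' := by
      rw [← h.st_fl w U hw hx.2, ← h.st_fl w' U' hw' hx'.2, hxx]
    have e2 : U = U' := by
      rw [← h.fl_oc w U hw hx.2, ← h.fl_oc w' U' hw' hx'.2, hxx]
    subst e1
    subst e2
    rfl

theorem PZ_eq (h : Fill L 0 0 st fl) (F : List Dir → ℝ) (z : ℂ) :
    PZ fl F L N z = ∑ v ∈ TZ fl L N, (F v : ℂ) * z ^ v.length := by
  rw [sumTZ h]
  unfold PZ
  refine sum_congr rfl fun w hw => sum_congr rfl fun U hU => ?_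
  rw [mem_powerset] at hU
  rw [h.fl_len w U (mem_Cz.1 hw).1 hU]

theorem pow_expand {R : Type} [CommSemiring R] (y : R) (E : Finset (ℤ × ℤ)) :
    ∑ U ∈ E.powerset, y ^ U.card = (1 + y) ^ E.card := by
  have := Finset.sum_pow_mul_eq_add_pow y 1 E
  simp only [one_pow, mul_one] at this
  rw [this, add_comm]

theorem MZ_eq (h : Fill L 0 0 st fl) (M : List Dir → ℝ) (x : ℝ) :
    ∑ w ∈ Cz L N, M w * x ^ w.length * (1 + x ^ 2) ^ (Sl L 0 0 w).card =
      ∑ v ∈ TZ fl L N, M (st v) * x ^ v.length := by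
  rw [sumTZ h]
  refine sum_congr rfl fun w hw => ?_
  rw [← pow_expand, mul_sum]
  refine sum_congr rfl fun U hU => ?_
  rw [mem_powerset] at hU
  rw [h.fl_len w U (mem_Cz.1 hw).1 hU, h.st_fl w U (mem_Cz.1 hw).1 hU, pow_add, pow_mul]
  ring

/-- the bound for one class -/
theorem rp_bound {E : Finset (ℤ × ℤ)} {Φ : Finset (ℤ × ℤ) → ℝ} {M : ℝ} (h : Rp E Φ M) (y : ℂ)
    {b : ℝ} (hb : 1 ≤ b) (hy : ‖1 + y‖ ≤ b) :
    ‖∑ U ∈ E.powerset, (Φ U : ℂ) * y ^ U.card‖ ≤ M * b ^ E.card := by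
  obtain ⟨v, h1, h2⟩ := h
  have e1 : ∑ U ∈ E.powerset, (Φ U : ℂ) * y ^ U.card =
      ∑ T ∈ E.powerset, (v T : ℂ) * (1 + y) ^ (E \ T).card := by
    have e2 : ∀ U ∈ E.powerset, (Φ U : ℂ) * y ^ U.card =
        ∑ T ∈ E.powerset, if Disjoint T U then (v T : ℂ) * y ^ U.card else 0 := by
      intro U hU
      rw [h2 U (mem_powerset.1 hU)]
      push_cast
      rw [sum_mul]
      refine sum_congr rfl fun T _ => ?_
      split_ifs <;> simp
    rw [sum_congr rfl e2, sum_comm]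
    refine sum_congr rfl fun T _ => ?_
    rw [← sum_filter, ← pow_expand, mul_sum]
    refine sum_congr ?_ fun _ _ => rfl
    ext U
    rw [mem_filter, mem_powerset, mem_powerset, subset_sdiff]
    exact ⟨fun h => ⟨h.1, h.2.symm⟩, fun h => ⟨h.1, h.2.symm⟩⟩
  rw [e1]
  have hb0 : 0 ≤ b := by linarith
  calc ‖∑ T ∈ E.powerset, (v T : ℂ) * (1 + y) ^ (E \ T).card‖
      ≤ ∑ T ∈ E.powerset, ‖(v T : ℂ) * (1 + y) ^ (E \ T).card‖ := norm_sum_le _ _
    _ ≤ ∑ T ∈ E.powerset, |v T| * b ^ E.card := by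
        refine sum_le_sum fun T _ => ?_
        rw [norm_mul, norm_pow, Complex.norm_real, Real.norm_eq_abs]
        refine mul_le_mul_of_nonneg_left ?_ (abs_nonneg _)
        exact (pow_le_pow_left₀ (norm_nonneg _) hy _).trans
          (pow_le_pow_right₀ hb (card_le_card sdiff_subset))
    _ = (∑ T ∈ E.powerset, |v T|) * b ^ E.card := by rw [sum_mul]
    _ ≤ M * b ^ E.card := mul_le_mul_of_nonneg_right h1 (by positivity)

/-- grouping by the length -/
theorem grp (G : List Dir → ℝ) (hG : ∀ n, ∀ w ∈ SW n, 0 ≤ G w) (b : ℕ → ℝ)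
    (hb : ∀ n, az G n ≤ b n) (S : Finset (List Dir)) (M : ℕ)
    (hS : ∀ w ∈ S, w ∈ SW w.length ∧ M ≤ w.length) (x : ℝ) (hx : 0 ≤ x)
    (hsum : Summable (fun n => b n * x ^ n)) :
    ∑ w ∈ S, G w * x ^ w.length ≤ ∑' n, b (n + M) * x ^ (n + M) := by
  have hs2 : Summable (fun n => b (n + M) * x ^ (n + M)) :=
    (summable_nat_add_iff (f := fun n => b n * x ^ n) M).2 hsum
  have haa : ∀ n, 0 ≤ az G n := fun n => Finset.sum_nonneg (hG n)
  have hmap : ∀ w ∈ S, (w.length - M) ∈ S.image (fun w => w.length - M) := fun w hw =>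
    Finset.mem_image_of_mem _ hw
  calc ∑ w ∈ S, G w * x ^ w.length
      = ∑ k ∈ S.image (fun w => w.length - M), ∑ w ∈ S.filter (fun w => w.length - M = k),
          G w * x ^ w.length := (Finset.sum_fiberwise_of_maps_to hmap _).symm
    _ ≤ ∑ k ∈ S.image (fun w => w.length - M), b (k + M) * x ^ (k + M) := by
        refine Finset.sum_le_sum (fun k _ => ?_)
        have hlen : ∀ w ∈ S.filter (fun w => w.length - M = k), w.length = k + M ∧
            w ∈ SW (k + M) := by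
          intro w hw
          rw [Finset.mem_filter] at hw
          have h1 := hS w hw.1
          have h2 : w.length = k + M := by omega
          refine ⟨h2, ?_⟩
          rw [← h2]; exact h1.1
        refine le_trans ?_ (mul_le_mul_of_nonneg_right (hb (k + M)) (by positivity))
        unfold az
        rw [Finset.sum_mul]
        calc ∑ w ∈ S.filter (fun w => w.length - M = k), G w * x ^ w.length
            = ∑ w ∈ S.filter (fun w => w.length - M = k), G w * x ^ (k + M) :=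
              Finset.sum_congr rfl (fun w hw => by rw [(hlen w hw).1])
          _ ≤ ∑ w ∈ SW (k + M), G w * x ^ (k + M) := by
              refine Finset.sum_le_sum_of_subset_of_nonneg (fun w hw => (hlen w hw).2) ?_
              intro w hw _
              exact mul_nonneg (hG _ w hw) (by positivity)
    _ ≤ ∑' n, b (n + M) * x ^ (n + M) :=
        hs2.sum_le_tsum _ (fun n _ => mul_nonneg ((haa _).trans (hb _)) (by positivity))

theorem norm_sum_le' (F : List Dir → ℝ) (S : Finset (List Dir)) (z : ℂ) :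
    ‖∑ w ∈ S, (F w : ℂ) * z ^ w.length‖ ≤ ∑ w ∈ S, |F w| * ‖z‖ ^ w.length := by
  refine (norm_sum_le _ _).trans (Finset.sum_le_sum (fun w hw => ?_))
  rw [norm_mul, norm_pow, Complex.norm_real, Real.norm_eq_abs]

/-- the bound inside the disc -/
theorem bnd1 (h : Fill L 0 0 st fl) {F : List Dir → ℝ} {b : ℕ → ℝ}
    (hb : ∀ n, ∑ w ∈ SW n, |F w| ≤ b n)
    (z : ℂ) (x : ℝ) (hx : 0 ≤ x) (hs : Summable (fun n => b n * x ^ n)) (hz : ‖z‖ ≤ x) :
    ‖PZ fl F L N z‖ ≤ ∑' n, b n * x ^ n := by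
  have hTx : ∑ w ∈ TZ fl L N, |F w| * x ^ w.length ≤ ∑' n, b n * x ^ n := by
    have := grp (fun w => |F w|) (fun _ _ _ => abs_nonneg _) b hb (TZ fl L N) 0
      (fun w hw => ⟨TZ_mem h hw, Nat.zero_le _⟩) x hx hs
    simpa only [Nat.add_zero] using this
  rw [PZ_eq h]
  refine (norm_sum_le' F _ z).trans (le_trans (Finset.sum_le_sum (fun w hw => ?_)) hTx)
  exact mul_le_mul_of_nonneg_left (pow_le_pow_left₀ (norm_nonneg _) hz _) (abs_nonneg _)

/-- `PZ` is close to the generating function inside the disc of convergence -/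
theorem cnv (h : Fill L 0 0 st fl) {F : List Dir → ℝ} {b : ℕ → ℝ}
    (hb : ∀ n, ∑ w ∈ SW n, |F w| ≤ b n)
    (z : ℂ) (hs : Summable (fun n => b n * ‖z‖ ^ n)) :
    ‖PZ fl F L N z - ∑ n ∈ range (N + 1), (az F n : ℂ) * z ^ n‖ ≤
      ∑' n, b (n + (N + 1)) * ‖z‖ ^ (n + (N + 1)) := by
  have hlow : ∑ n ∈ range (N + 1), (az F n : ℂ) * z ^ n =
      ∑ w ∈ (TZ fl L N).filter (fun w => w.length ≤ N), (F w : ℂ) * z ^ w.length := by
    have hset : (TZ fl L N).filter (fun w => w.length ≤ N) = (range (N + 1)).biUnion SW := by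
      ext w
      rw [Finset.mem_filter, Finset.mem_biUnion]
      constructor
      · rintro ⟨h1, h2⟩
        exact ⟨w.length, Finset.mem_range.2 (by omega), TZ_mem h h1⟩
      · rintro ⟨m, hm, hw⟩
        rw [Finset.mem_range] at hm
        have := len_SW hw
        exact ⟨TZ_sub h (by omega) hw, by omega⟩
    have hdisj : Set.PairwiseDisjoint (↑(range (N + 1)) : Set ℕ) SW := by
      intro m _ m' _ hne
      rw [Function.onFun, Finset.disjoint_left]
      intro w hw hw'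
      exact hne ((len_SW hw).symm.trans (len_SW hw'))
    rw [hset, Finset.sum_biUnion hdisj]
    refine Finset.sum_congr rfl (fun m _ => ?_)
    unfold az
    push_cast
    rw [Finset.sum_mul]
    refine Finset.sum_congr rfl (fun w hw => ?_)
    rw [len_SW hw]
  rw [PZ_eq h, hlow, ← Finset.sum_filter_add_sum_filter_not (TZ fl L N) (fun w => w.length ≤ N),
    add_sub_cancel_left]
  refine (norm_sum_le' F _ z).trans ?_
  refine grp (fun w => |F w|) (fun _ _ _ => abs_nonneg _) b hb _ (N + 1) (fun w hw => ?_) ‖z‖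
    (norm_nonneg z) hs
  rw [Finset.mem_filter] at hw
  exact ⟨TZ_mem h hw.1, by omega⟩

/-- the bound outside the disc -/
theorem bnd2 (h : Fill L 0 0 st fl) (hL : CF L) {F M : List Dir → ℝ} {b : ℕ → ℝ} {C₀ : ℝ}
    {p : ℕ} (hC₀ : 0 ≤ C₀) (hF : ∀ n, ∀ w ∈ SW n, |F w| ≤ C₀ * ((n : ℝ) + 1) ^ p)
    (hM : ∀ w, 0 ≤ M w)
    (hrep : ∀ w, Em L 0 0 w → Rp (Sl L 0 0 w) (fun U => F (fl w U)) (M w))
    (hMs : ∀ n, ∑ w ∈ SW n, M (st w) ≤ b n) (z : ℂ) (x : ℝ) (hx : 0 ≤ x)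
    (hs : Summable (fun n => b n * x ^ n)) (c₀ δ : ℝ) (hc₀ : 0 < c₀) (hδ : 0 ≤ δ)
    (h1 : ‖z‖ ≤ x * Real.exp (c₀ * δ)) (h2 : ‖1 + z ^ 2‖ ≤ (1 + x ^ 2) * Real.exp (-δ))
    (h3 : 1 ≤ (1 + x ^ 2) * Real.exp (-δ)) :
    ‖PZ fl F L N z‖ ≤ (∑' n, b n * x ^ n) +
      ∑ m ∈ range (N + 1), (((SW m).filter
        (fun w => ((Sl L 0 0 w).card : ℝ) < c₀ * m)).card : ℝ) *
        (C₀ * (3 * ((m : ℝ) + 1)) ^ p * (‖z‖ * (1 + ‖z‖ ^ 2) ^ c₀) ^ m) := by
  set B : ℝ := ‖z‖ * (1 + ‖z‖ ^ 2) ^ c₀ with hB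
  have hB0 : 0 ≤ B := by positivity
  have hCo : ∀ w ∈ Cz L N, w ∈ SW w.length ∧ w.length ≤ N := fun w hw =>
    ⟨(mem_Cz.1 hw).1.2.1, (mem_Cz.1 hw).2⟩
  have hterm : ∀ w ∈ Cz L N, ‖∑ U ∈ (Sl L 0 0 w).powerset,
      (F (fl w U) : ℂ) * z ^ (w.length + 2 * U.card)‖ ≤
      M w * x ^ w.length * (1 + x ^ 2) ^ (Sl L 0 0 w).card +
      (if ((Sl L 0 0 w).card : ℝ) < c₀ * w.length then
        C₀ * (3 * ((w.length : ℝ) + 1)) ^ p * B ^ w.length else 0) := by
    intro w hw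
    have hwE := (mem_Cz.1 hw).1
    have hx1 : 0 ≤ M w * x ^ w.length * (1 + x ^ 2) ^ (Sl L 0 0 w).card :=
      mul_nonneg (mul_nonneg (hM w) (by positivity)) (by positivity)
    set l := w.length with hl
    set k := (Sl L 0 0 w).card with hk
    have hsplit : ∑ U ∈ (Sl L 0 0 w).powerset, (F (fl w U) : ℂ) * z ^ (l + 2 * U.card) =
        z ^ l * ∑ U ∈ (Sl L 0 0 w).powerset, (F (fl w U) : ℂ) * (z ^ 2) ^ U.card := by
      rw [mul_sum]
      refine sum_congr rfl fun U _ => ?_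
      rw [pow_add, pow_mul]
      ring
    split_ifs with hlt
    · have hsl := sl_card hL (a := 0) (l := 0) w
      rw [← hk, ← hl] at hsl
      have e0 : ‖∑ U ∈ (Sl L 0 0 w).powerset, (F (fl w U) : ℂ) * (z ^ 2) ^ U.card‖ ≤
          C₀ * (3 * ((l : ℝ) + 1)) ^ p * (1 + ‖z‖ ^ 2) ^ k := by
        rw [← pow_expand, mul_sum]
        refine (norm_sum_le _ _).trans (sum_le_sum fun U hU => ?_)
        rw [mem_powerset] at hU
        have hUc := card_le_card hU
        have h4 := hF _ (fl w U) (h.fl_sw w U hwE hU)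
        rw [norm_mul, norm_pow, norm_pow, Complex.norm_real, Real.norm_eq_abs]
        refine mul_le_mul_of_nonneg_right (h4.trans ?_) (by positivity)
        refine mul_le_mul_of_nonneg_left (pow_le_pow_left₀ (by positivity) ?_ p) hC₀
        have h5 : w.length + 2 * U.card + 1 ≤ 3 * (l + 1) := by omega
        exact_mod_cast h5
      have hbase : 1 ≤ 1 + ‖z‖ ^ 2 := by
        have : 0 ≤ ‖z‖ ^ 2 := by positivity
        linarith
      have e2 : (1 + ‖z‖ ^ 2) ^ k ≤ ((1 + ‖z‖ ^ 2) ^ c₀) ^ l := by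
        calc (1 + ‖z‖ ^ 2) ^ k = (1 + ‖z‖ ^ 2) ^ (k : ℝ) := (Real.rpow_natCast _ _).symm
          _ ≤ (1 + ‖z‖ ^ 2) ^ (c₀ * l) := Real.rpow_le_rpow_of_exponent_le hbase hlt.le
          _ = ((1 + ‖z‖ ^ 2) ^ c₀) ^ l := by
              rw [Real.rpow_mul (by linarith), Real.rpow_natCast]
      have e3 : ‖z‖ ^ l * (C₀ * (3 * ((l : ℝ) + 1)) ^ p * (1 + ‖z‖ ^ 2) ^ k) ≤
          C₀ * (3 * ((l : ℝ) + 1)) ^ p * B ^ l := by
        rw [hB, mul_pow ‖z‖]
        calc ‖z‖ ^ l * (C₀ * (3 * ((l : ℝ) + 1)) ^ p * (1 + ‖z‖ ^ 2) ^ k)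
            = C₀ * (3 * ((l : ℝ) + 1)) ^ p * (‖z‖ ^ l * (1 + ‖z‖ ^ 2) ^ k) := by ring
          _ ≤ _ := by gcongr
      rw [hsplit, norm_mul, norm_pow]
      have e4 := mul_le_mul_of_nonneg_left e0 (show 0 ≤ ‖z‖ ^ l by positivity)
      linarith
    · have hge : c₀ * l ≤ k := not_lt.1 hlt
      rw [add_zero, hsplit, norm_mul, norm_pow]
      have e0 := rp_bound (hrep w hwE) (z ^ 2) h3 h2
      rw [← hk] at e0
      have e1 : ‖z‖ ^ l ≤ (x * Real.exp (c₀ * δ)) ^ l := pow_le_pow_left₀ (norm_nonneg _) h1 _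
      have e4 : Real.exp (c₀ * δ) ^ l * Real.exp (-δ) ^ k ≤ 1 := by
        rw [← Real.exp_nat_mul, ← Real.exp_nat_mul, ← Real.exp_add]
        rw [Real.exp_le_one_iff]
        have : c₀ * l * δ ≤ k * δ := mul_le_mul_of_nonneg_right hge hδ
        linarith
      calc ‖z‖ ^ l * ‖∑ U ∈ (Sl L 0 0 w).powerset, (F (fl w U) : ℂ) * (z ^ 2) ^ U.card‖
          ≤ (x * Real.exp (c₀ * δ)) ^ l * (M w * ((1 + x ^ 2) * Real.exp (-δ)) ^ k) :=
            mul_le_mul e1 e0 (norm_nonneg _) (by positivity)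
        _ = M w * x ^ l * (1 + x ^ 2) ^ k * (Real.exp (c₀ * δ) ^ l * Real.exp (-δ) ^ k) := by
            rw [mul_pow, mul_pow]; ring
        _ ≤ M w * x ^ l * (1 + x ^ 2) ^ k * 1 := mul_le_mul_of_nonneg_left e4 hx1
        _ = _ := mul_one _
  have hMst : ∀ n, ∀ w ∈ SW n, 0 ≤ M (st w) := fun n w _ => hM _
  have hfirst : ∑ w ∈ Cz L N, M w * x ^ w.length * (1 + x ^ 2) ^ (Sl L 0 0 w).card ≤
      ∑' n, b n * x ^ n := by
    rw [MZ_eq h]
    have h6 := grp (fun w => M (st w)) hMst b hMs (TZ fl L N) 0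
      (fun w hw => ⟨TZ_mem h hw, Nat.zero_le _⟩) x hx hs
    simpa only [Nat.add_zero] using h6
  have hsec : ∑ w ∈ Cz L N,
      (if ((Sl L 0 0 w).card : ℝ) < c₀ * w.length then
        C₀ * (3 * ((w.length : ℝ) + 1)) ^ p * B ^ w.length else 0) ≤
      ∑ m ∈ range (N + 1), (((SW m).filter
        (fun w => ((Sl L 0 0 w).card : ℝ) < c₀ * m)).card : ℝ) *
        (C₀ * (3 * ((m : ℝ) + 1)) ^ p * B ^ m) := by
    rw [← Finset.sum_filter]
    have hdisj : Set.PairwiseDisjoint (↑(range (N + 1)) : Set ℕ) (fun m => (SW m).filter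
        (fun w => ((Sl L 0 0 w).card : ℝ) < c₀ * m)) := by
      intro m _ m' _ hne
      rw [Function.onFun, Finset.disjoint_left]
      intro w hw hw'
      rw [Finset.mem_filter] at hw hw'
      exact hne ((len_SW hw.1).symm.trans (len_SW hw'.1))
    have hinner : ∑ m ∈ range (N + 1), (((SW m).filter
        (fun w => ((Sl L 0 0 w).card : ℝ) < c₀ * m)).card : ℝ) *
        (C₀ * (3 * ((m : ℝ) + 1)) ^ p * B ^ m) =
        ∑ w ∈ (range (N + 1)).biUnion (fun m => (SW m).filter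
        (fun w => ((Sl L 0 0 w).card : ℝ) < c₀ * m)),
          C₀ * (3 * ((w.length : ℝ) + 1)) ^ p * B ^ w.length := by
      rw [Finset.sum_biUnion hdisj]
      refine Finset.sum_congr rfl (fun m _ => ?_)
      rw [← nsmul_eq_mul, ← sum_const]
      refine Finset.sum_congr rfl (fun w hw => ?_)
      rw [len_SW (Finset.mem_filter.1 hw).1]
    rw [hinner]
    refine Finset.sum_le_sum_of_subset_of_nonneg ?_ ?_
    · intro w hw
      rw [Finset.mem_filter] at hw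
      obtain ⟨hw1, hw2⟩ := hCo w hw.1
      rw [Finset.mem_biUnion]
      exact ⟨w.length, Finset.mem_range.2 (by omega), Finset.mem_filter.2 ⟨hw1, hw.2⟩⟩
    · intro w hw _
      positivity
  unfold PZ
  calc ‖∑ w ∈ Cz L N, ∑ U ∈ (Sl L 0 0 w).powerset,
        (F (fl w U) : ℂ) * z ^ (w.length + 2 * U.card)‖
      ≤ ∑ w ∈ Cz L N, ‖∑ U ∈ (Sl L 0 0 w).powerset,
        (F (fl w U) : ℂ) * z ^ (w.length + 2 * U.card)‖ := norm_sum_le _ _
    _ ≤ ∑ w ∈ Cz L N, (M w * x ^ w.length * (1 + x ^ 2) ^ (Sl L 0 0 w).card +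
      (if ((Sl L 0 0 w).card : ℝ) < c₀ * w.length then
        C₀ * (3 * ((w.length : ℝ) + 1)) ^ p * B ^ w.length else 0)) :=
        Finset.sum_le_sum hterm
    _ = ∑ w ∈ Cz L N, M w * x ^ w.length * (1 + x ^ 2) ^ (Sl L 0 0 w).card +
      ∑ w ∈ Cz L N, (if ((Sl L 0 0 w).card : ℝ) < c₀ * w.length then
        C₀ * (3 * ((w.length : ℝ) + 1)) ^ p * B ^ w.length else 0) :=
        Finset.sum_add_distrib
    _ ≤ _ := add_le_add hfirst hsec

end

end Run7.h106.AC
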