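import Pool.Agent.Run7.h106.AC.Core
import Pool.Agent.N929.EZ.All2
import Pool.Agent.N738.AC.ASM

/-!
# Few walks have few slots on average
-/

set_option autoImplicit false
set_option linter.unusedVariables false

namespace Run7.h106.AC

open Pool.Agent.H976R2 Pool.Agent.H976R2.Dir Finset Filter Topology
open Pool.Agent.N929.EX Pool.Agent.N929.EY Pool.Agent.N929.EZ
open scoped Classical

noncomputable section

theorem log_sq_small {c : ℝ} (hc : 0 < c) : ∃ m₀ : ℕ, ∀ m : ℕ, m₀ ≤ m →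
    Real.log m ^ 2 ≤ c * m := by
  have hlo := (Real.isLittleO_pow_log_id_atTop (n := 2)).def hc
  rw [Filter.eventually_atTop] at hlo
  obtain ⟨x₀, hx₀⟩ := hlo
  obtain ⟨n₀, hn₀⟩ := exists_nat_ge x₀
  refine ⟨n₀ + 1, fun m hm => ?_⟩
  have hm' : (n₀ : ℝ) + 1 ≤ m := by exact_mod_cast hm
  have hx := hx₀ m (by linarith)
  have hm0 : (0 : ℝ) ≤ m := Nat.cast_nonneg m
  rw [Real.norm_eq_abs, id, Real.norm_eq_abs, abs_of_nonneg (by positivity),
    abs_of_nonneg hm0] at hx
  exact hx

/-- the growth of the numbers of walks -/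
theorem growth {μ K : ℝ} (hμ : 1 ≤ μ) (hK : 0 ≤ K) (hupp : ∀ m n : ℕ, 2 ≤ n → m ≤ n →
      ((SW m).card : ℝ) ≤ 4 * (μ ^ m * Real.exp (K * Real.log n ^ 2))) {a : ℝ} (ha : 0 < a) :
    ∃ C : ℝ, 0 < C ∧ ∀ m : ℕ, ((SW m).card : ℝ) ≤ C * (Real.exp a * μ) ^ m := by
  obtain ⟨m₁, hm₁⟩ := log_sq_small (show 0 < a / (K + 1) by positivity)
  have hp : ∀ m : ℕ, 0 < (Real.exp a * μ) ^ m := fun m =>
    pow_pos (mul_pos (Real.exp_pos a) (by linarith)) m
  have hs : ∀ j ∈ range (m₁ + 2), 0 ≤ ((SW j).card : ℝ) / (Real.exp a * μ) ^ j := fun j _ =>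
    div_nonneg (Nat.cast_nonneg _) (hp j).le
  refine ⟨4 + ∑ j ∈ range (m₁ + 2), ((SW j).card : ℝ) / (Real.exp a * μ) ^ j, ?_, fun m => ?_⟩
  · have := Finset.sum_nonneg hs
    linarith
  · by_cases hm : m < m₁ + 2
    · have h1 := Finset.single_le_sum hs (Finset.mem_range.2 hm)
      rw [div_le_iff₀ (hp m)] at h1
      have h2 := hp m
      nlinarith
    · have h1 := hupp m m (by omega) le_rfl
      have h2 := hm₁ m (by omega)
      have h3 : K * Real.log m ^ 2 ≤ a * m := by
        have hm0 : (0 : ℝ) ≤ m := Nat.cast_nonneg m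
        have h4 : K * Real.log m ^ 2 ≤ (K + 1) * (a / (K + 1) * m) := by
          have h5 : 0 ≤ Real.log m ^ 2 := by positivity
          nlinarith
        have h6 : (K + 1) * (a / (K + 1) * m) = a * m := by field_simp
        linarith
      have h4 : Real.exp (K * Real.log m ^ 2) ≤ Real.exp a ^ m := by
        rw [← Real.exp_nat_mul]
        apply Real.exp_le_exp.2
        linarith [mul_comm a (m : ℝ)]
      have h5 : ((SW m).card : ℝ) ≤ 4 * (Real.exp a * μ) ^ m := by
        refine h1.trans ?_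
        rw [mul_pow, mul_comm (Real.exp a ^ m)]
        gcongr
      have h6 := Finset.sum_nonneg hs
      have h7 := hp m
      nlinarith

/-- few walks have few bumps -/
theorem few_bw : ∃ D : ℝ, 0 < D ∧ ∀ m : ℕ,
    (((SW m).filter (fun w => 4000 * BW 1 2 w < m)).card : ℝ) ≤
      D * Real.exp (-((m : ℝ) / 5000)) * ((SW m).card : ℝ) := by
  obtain ⟨A, B, hA, hB, hF⟩ := few_win (Pool.Agent.N348.EX.few_of_up Pool.Agent.N348.EX.up)
  obtain ⟨m₁, hm₁⟩ := log_sq_small (show 0 < 1 / A by positivity)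
  refine ⟨B + Real.exp (((m₁ + 2 : ℕ) : ℝ) / 5000), by positivity, fun m => ?_⟩
  have hc : (0 : ℝ) ≤ ((SW m).card : ℝ) := Nat.cast_nonneg _
  have he := Real.exp_pos (-((m : ℝ) / 5000))
  have he2 := Real.exp_pos (((m₁ + 2 : ℕ) : ℝ) / 5000)
  by_cases hm : m < m₁ + 2
  · have h1 : (((SW m).filter (fun w => 4000 * BW 1 2 w < m)).card : ℝ) ≤ ((SW m).card : ℝ) := by
      exact_mod_cast card_filter_le _ _
    have h2 : 1 ≤ Real.exp (((m₁ + 2 : ℕ) : ℝ) / 5000) * Real.exp (-((m : ℝ) / 5000)) := by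
      rw [← Real.exp_add]
      apply Real.one_le_exp
      have : (m : ℝ) ≤ ((m₁ + 2 : ℕ) : ℝ) := by exact_mod_cast hm.le
      linarith
    calc _ ≤ 1 * ((SW m).card : ℝ) := by rw [one_mul]; exact h1
      _ ≤ (Real.exp (((m₁ + 2 : ℕ) : ℝ) / 5000) * Real.exp (-((m : ℝ) / 5000))) *
          ((SW m).card : ℝ) := mul_le_mul_of_nonneg_right h2 hc
      _ ≤ _ := by
          refine mul_le_mul_of_nonneg_right ?_ hc
          refine mul_le_mul_of_nonneg_right ?_ he.le
          linarith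
  · have h1 := hm₁ m (by omega)
    have h2 : A * Real.log m ^ 2 ≤ (m : ℝ) - 0 := by
      have h3 := mul_le_mul_of_nonneg_left h1 hA.le
      have h4 : A * (1 / A * (m : ℝ)) = m := by field_simp
      linarith
    have h3 := hF m 0 m (by omega) (by omega) le_rfl (by simpa using h2)
    rw [show m - m + 2 = 2 by omega, show m - 0 = m by omega] at h3
    refine h3.trans ?_
    refine mul_le_mul_of_nonneg_right ?_ hc
    refine mul_le_mul_of_nonneg_right ?_ he.le
    linarith

theorem fewz {μ K : ℝ} (hμ : 1 ≤ μ) (hK : 0 ≤ K) (hupp : ∀ m n : ℕ, 2 ≤ n → m ≤ n →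
      ((SW m).card : ℝ) ≤ 4 * (μ ^ m * Real.exp (K * Real.log n ^ 2))) :
    ∃ c₀ θ C : ℝ, 0 < c₀ ∧ 0 < θ ∧ θ < 1 ∧ 0 < C ∧ ∀ N : ℕ,
      ∃ (ι : Type) (_ : Fintype ι) (_ : Nonempty ι) (Λ : ι → Finset (ℤ × ℤ)), (∀ i, CF (Λ i)) ∧
        ∀ m ≤ N, ∑ i, (((SW m).filter
          (fun w => ((Sl (Λ i) 0 0 w).card : ℝ) < c₀ * m)).card : ℝ) ≤
            C * (θ * μ) ^ m * Fintype.card ι := by
  obtain ⟨D, hD, hbw⟩ := few_bw
  obtain ⟨a, ha⟩ : ∃ a : ℝ, a = 1 / (8 * 10 ^ 8) := ⟨_, rfl⟩
  have ha0 : 0 < a := by rw [ha]; positivity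
  obtain ⟨C, hC, hgr⟩ := growth hμ hK hupp ha0
  have hθ : Real.exp (-a) < 1 := by
    rw [Real.exp_lt_one_iff]
    linarith
  refine ⟨1 / (4 * 10 ^ 8), Real.exp (-a), C * (1 + D), by positivity, Real.exp_pos _, hθ,
    by positivity, fun N => ?_⟩
  obtain ⟨ι, i1, i2, Λ, hΛ, hs⟩ := Pool.Agent.N322.EZ.sel3 (N + 1)
  refine ⟨ι, i1, i2, Λ, hΛ, fun m hm => ?_⟩
  have hι : (0 : ℝ) ≤ Fintype.card ι := Nat.cast_nonneg _
  have e1 : ∀ i, (((SW m).filter
      (fun w => ((Sl (Λ i) 0 0 w).card : ℝ) < 1 / (4 * 10 ^ 8) * m)).card : ℝ) =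
      ∑ w ∈ SW m, if ((Sl (Λ i) 0 0 w).card : ℝ) < 1 / (4 * 10 ^ 8) * m then (1 : ℝ) else 0 := by
    intro i
    rw [Finset.sum_boole]
  rw [Finset.sum_congr rfl fun i _ => e1 i, Finset.sum_comm]
  have hw : ∀ w ∈ SW m,
      (∑ i, if ((Sl (Λ i) 0 0 w).card : ℝ) < 1 / (4 * 10 ^ 8) * m then (1 : ℝ) else 0) ≤
        (if 4000 * BW 1 2 w < m then (1 : ℝ) else 0) * Fintype.card ι +
          Real.exp (-(2 * a * m)) * Fintype.card ι := by
    intro w hwK
    have hl := len_SW hwK
    rw [Finset.sum_boole]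
    by_cases hb : 4000 * BW 1 2 w < m
    · rw [if_pos hb, one_mul]
      have h4 : ((univ.filter fun i => ((Sl (Λ i) 0 0 w).card : ℝ) <
          1 / (4 * 10 ^ 8) * m).card : ℝ) ≤ Fintype.card ι := by
        exact_mod_cast Finset.card_le_univ _
      have h5 : 0 ≤ Real.exp (-(2 * a * m)) * Fintype.card ι :=
        mul_nonneg (Real.exp_pos _).le hι
      linarith
    · rw [if_neg hb, zero_mul, zero_add]
      push Not at hb
      by_cases hm2 : m < 2
      · -- short walks
        rcases Nat.eq_zero_or_pos m with h0 | h0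
        · have : univ.filter (fun i => ((Sl (Λ i) 0 0 w).card : ℝ) < 1 / (4 * 10 ^ 8) * m) = ∅ := by
            refine filter_eq_empty_iff.mpr fun i _ hi => ?_
            rw [h0] at hi
            simp only [Nat.cast_zero, mul_zero] at hi
            exact absurd hi (not_lt.2 (Nat.cast_nonneg _))
          rw [this, card_empty, Nat.cast_zero]
          exact mul_nonneg (Real.exp_pos _).le hι
        · -- `m = 1`: no bumps
          exfalso
          have h7 : BW 1 2 w ≤ 0 := by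
            unfold BW
            rw [Nat.le_zero, card_eq_zero]
            refine filter_eq_empty_iff.mpr fun i _ hi => ?_
            omega
          omega
      · obtain ⟨P, hP1, hP2, hP3⟩ := plw Pool.Agent.N457.EX.plq (n := m) (a := 0) (b := m)
          (by omega) le_rfl hwK
        rw [show m - m + 2 = 2 by omega, show 0 + 1 = 1 by omega] at hP3
        have h5 := hs P (fun p hp => by
          have h3 := hP1 p hp
          have h4 : (m : ℤ) ≤ N := by exact_mod_cast hm
          push_cast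
          constructor
          · linarith [h3.1]
          · linarith [h3.2])
        have hPc : m ≤ 4000 * P.card := by omega
        have h6 : (univ.filter fun i => ((Sl (Λ i) 0 0 w).card : ℝ) < 1 / (4 * 10 ^ 8) * m) ⊆
            univ.filter (fun i => 100000 * (Λ i ∩ P).card < P.card) := by
          intro i hi
          rw [Finset.mem_filter] at hi ⊢
          refine ⟨Finset.mem_univ _, ?_⟩
          have h7 : (Λ i ∩ P).card ≤ (Sl (Λ i) 0 0 w).card := by
            refine card_le_card ((hP2 (Λ i)).trans ?_)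
            unfold Sl
            rw [hl, Nat.sub_zero]
            exact OO_sub'
          have h8 : ((Λ i ∩ P).card : ℝ) ≤ (Sl (Λ i) 0 0 w).card := by exact_mod_cast h7
          have h9 : (m : ℝ) ≤ 4000 * P.card := by exact_mod_cast hPc
          have h10 : (100000 : ℝ) * (Λ i ∩ P).card < P.card := by
            have h11 := hi.2
            nlinarith
          exact_mod_cast h10
        have h7 : ((univ.filter fun i => ((Sl (Λ i) 0 0 w).card : ℝ) <
            1 / (4 * 10 ^ 8) * m).card : ℝ) ≤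
            ((univ.filter (fun i => 100000 * (Λ i ∩ P).card < P.card)).card : ℝ) := by
          exact_mod_cast Finset.card_le_card h6
        refine h7.trans (h5.trans ?_)
        refine mul_le_mul_of_nonneg_right (Real.exp_le_exp.2 ?_) hι
        have h9 : (m : ℝ) ≤ 4000 * P.card := by exact_mod_cast hPc
        rw [ha]
        have h10 : (2 * (1 / (8 * 10 ^ 8)) * m : ℝ) ≤ (P.card : ℝ) / 100000 := by
          rw [le_div_iff₀ (by norm_num)]
          linarith
        linarith
  refine (Finset.sum_le_sum hw).trans ?_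
  rw [Finset.sum_add_distrib, ← Finset.sum_mul, Finset.sum_const, nsmul_eq_mul]
  have h4 : (∑ w ∈ SW m, if 4000 * BW 1 2 w < m then (1 : ℝ) else 0) ≤
      D * Real.exp (-(2 * a * m)) * ((SW m).card : ℝ) := by
    rw [Finset.sum_boole]
    refine (hbw m).trans ?_
    have hm0 : (0 : ℝ) ≤ m := Nat.cast_nonneg m
    have h5 : Real.exp (-((m : ℝ) / 5000)) ≤ Real.exp (-(2 * a * m)) := by
      apply Real.exp_le_exp.2
      rw [ha]
      linarith
    gcongr
  have h5 : ((SW m).card : ℝ) * Real.exp (-(2 * a * m)) ≤ C * (Real.exp (-a) * μ) ^ m := by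
    have h6 := hgr m
    calc ((SW m).card : ℝ) * Real.exp (-(2 * a * m))
        ≤ (C * (Real.exp a * μ) ^ m) * Real.exp (-(2 * a * m)) :=
          mul_le_mul_of_nonneg_right h6 (Real.exp_pos _).le
      _ = C * (Real.exp (-a) * μ) ^ m := by
          rw [mul_pow, mul_pow, ← Real.exp_nat_mul, ← Real.exp_nat_mul]
          have : Real.exp (m * -a) = Real.exp (m * a) * Real.exp (-(2 * a * m)) := by
            rw [← Real.exp_add]
            congr 1
            ring
          rw [this]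
          ring
  calc (∑ w ∈ SW m, if 4000 * BW 1 2 w < m then (1 : ℝ) else 0) * Fintype.card ι +
        ((SW m).card : ℝ) * (Real.exp (-(2 * a * m)) * Fintype.card ι)
      ≤ (D * Real.exp (-(2 * a * m)) * ((SW m).card : ℝ)) * Fintype.card ι +
        ((SW m).card : ℝ) * (Real.exp (-(2 * a * m)) * Fintype.card ι) := by gcongr
    _ = (1 + D) * (((SW m).card : ℝ) * Real.exp (-(2 * a * m))) * Fintype.card ι := by ring
    _ ≤ (1 + D) * (C * (Real.exp (-a) * μ) ^ m) * Fintype.card ι := by gcongr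
    _ = C * (1 + D) * (Real.exp (-a) * μ) ^ m * Fintype.card ι := by ring

/-- summability inside the disc of convergence -/
theorem grw {μ K : ℝ} (hμ : 1 ≤ μ) (hK : 0 ≤ K) (hupp : ∀ m n : ℕ, 2 ≤ n → m ≤ n →
      ((SW m).card : ℝ) ≤ 4 * (μ ^ m * Real.exp (K * Real.log n ^ 2)))
    (b : ℕ → ℝ) (C₀ : ℝ) (p : ℕ) (hC₀ : 0 ≤ C₀) (hb0 : ∀ n, 0 ≤ b n)
    (hb : ∀ n, b n ≤ C₀ * ((n : ℝ) + 1) ^ p * ((SW n).card : ℝ)) (x : ℝ) (hx : 0 ≤ x)
    (hμx : μ * x < 1) : Summable (fun n => b n * x ^ n) := by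
  have hr0 : 0 ≤ μ * x := by positivity
  set r := μ * x with hr
  set e := (1 - r) / 2 with he
  have he0 : 0 < e := by rw [he]; linarith
  have hρ : r * Real.exp e < 1 := by
    have h1 := Real.add_one_le_exp (-e)
    have h3 : Real.exp e * Real.exp (-e) = 1 := by rw [← Real.exp_add]; simp
    have h4 := Real.exp_pos e
    have h2 : Real.exp e * (1 - e) ≤ 1 := by
      rw [← h3]
      exact mul_le_mul_of_nonneg_left (by linarith) h4.le
    have h5 : r < 1 - e := by rw [he]; linarith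
    have h6 : r * Real.exp e < (1 - e) * Real.exp e := mul_lt_mul_of_pos_right h5 h4
    linarith [mul_comm (1 - e) (Real.exp e)]
  obtain ⟨C, hC, hg⟩ := growth hμ hK hupp he0
  have h2 : Summable (fun n : ℕ => (C * C₀) * (((n : ℝ) + 1) ^ p * (r * Real.exp e) ^ n)) :=
    (Pool.Agent.N738.AC.sum_pp p _ (by positivity) hρ).mul_left _
  refine Summable.of_nonneg_of_le (fun n => mul_nonneg (hb0 n) (pow_nonneg hx n)) (fun n => ?_) h2
  calc b n * x ^ n ≤ (C₀ * ((n : ℝ) + 1) ^ p * ((SW n).card : ℝ)) * x ^ n :=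
        mul_le_mul_of_nonneg_right (hb n) (by positivity)
    _ ≤ (C₀ * ((n : ℝ) + 1) ^ p * (C * (Real.exp e * μ) ^ n)) * x ^ n :=
        mul_le_mul_of_nonneg_right (mul_le_mul_of_nonneg_left (hg n) (by positivity))
          (by positivity)
    _ = _ := by
        rw [hr, mul_pow, mul_pow, mul_pow]
        ring

end

end Run7.h106.AC
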