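import Pool.Agent.Run7.h106.AC.Asm
import Pool.Agent.N929.AC.Poly
import Pool.Agent.N353.AC.PRIM
import Pool.Agent.N426.EZ.XT
import Pool.Agent.N929.EZ.WidF

/-!
# Analytic continuation for functionals of polygons
-/

set_option autoImplicit false
set_option linter.unusedVariables false

namespace Run7.h106.AC

open Pool.Agent.H976R2 Pool.Agent.H976R2.Dir Finset Filter Topology
open Pool.Agent.N929.EX Pool.Agent.N929.EY Pool.Agent.N929.EZ
open Pool.Agent.N929.AC (Om xx cs Ext)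
open Pool.Agent.H739K (KP ar)
open scoped Classical

noncomputable section

/-- the words and the words without occupied slots are closed at the same time -/
theorem cl_st {L : Finset (ℤ × ℤ)} {st : List Dir → List Dir}
    {fl : List Dir → Finset (ℤ × ℤ) → List Dir} (hfl : Fill L 0 0 st fl) {w : List Dir}
    (hw : w ∈ SW w.length) : (sq (st w) = 1 ↔ sq w = 1) ∧ Em L 0 0 (st w) ∧
      Oc L 0 0 w ⊆ Sl L 0 0 (st w) ∧ fl (st w) (Oc L 0 0 w) = w := by
  have e1 := hfl.st_em w (by omega) hw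
  have e2 := hfl.fl_st w (by omega) hw
  have e3 : Oc L 0 0 w ⊆ Sl L 0 0 (st w) := by
    rw [hfl.st_sl w (by omega) hw]
    unfold Sl Oc
    exact OO_sub'
  have e4 : cl w = cl (st w) := by
    have := fl_inv hfl (D := Set.univ) (fun _ _ _ _ => Set.mem_univ _) (cl_iv Set.univ) e1 e3
    rwa [e2] at this
  refine ⟨?_, e1, e3, e2⟩
  unfold Pool.Agent.N929.EZ.cl at e4
  by_cases a1 : sq w = 1 <;> by_cases a2 : sq (st w) = 1 <;> simp [a1, a2] at e4 ⊢

theorem cl_fl {L : Finset (ℤ × ℤ)} {st : List Dir → List Dir}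
    {fl : List Dir → Finset (ℤ × ℤ) → List Dir} (hfl : Fill L 0 0 st fl) {w : List Dir}
    (hw : Em L 0 0 w) {U : Finset (ℤ × ℤ)} (hU : U ⊆ Sl L 0 0 w) : cl (fl w U) = cl w :=
  fl_inv hfl (D := Set.univ) (fun _ _ _ _ => Set.mem_univ _) (cl_iv Set.univ) hw hU

/-- the representation of a functional of closed words -/
def Hp (G : List Dir → ℝ) (b : ℕ → ℝ) : Prop :=
  ∀ L : Finset (ℤ × ℤ), CF L → ∀ st fl, Fill L 0 0 st fl → ∃ M : List Dir → ℝ, (∀ w, 0 ≤ M w) ∧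
    (∀ w, Em L 0 0 w → sq w = 1 → 3 ≤ w.length →
      Rp (Sl L 0 0 w) (fun U => G (fl w U)) (M w)) ∧
    ∀ n, 3 ≤ n → ∑ w ∈ KP n, (if 3 ≤ (st w).length then M (st w) else 0) ≤ b n

theorem hr_of_hp {G : List Dir → ℝ} {b : ℕ → ℝ} (hG0 : ∀ w, ¬ 3 ≤ w.length → G w = 0)
    (hb0 : ∀ n, 0 ≤ b n) (h : Hp G b) : Hr (fun w => cl w * G w) b := by
  intro L hL st fl hfl
  obtain ⟨M, hM0, hM1, hM2⟩ := h L hL st fl hfl
  refine ⟨fun w => if sq w = 1 ∧ 3 ≤ w.length then M w else 0, fun w => ?_, fun w hw => ?_,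
    fun n => ?_⟩ <;> beta_reduce
  · split_ifs
    · exact hM0 w
    · exact le_rfl
  · have hcl : ∀ U ⊆ Sl L 0 0 w, cl (fl w U) = cl w := fun U hU => cl_fl hfl hw hU
    by_cases hs : sq w = 1
    · have hcw : cl w = 1 := by unfold Pool.Agent.N929.EZ.cl; rw [if_pos hs]
      by_cases h3 : 3 ≤ w.length
      · rw [if_pos ⟨hs, h3⟩]
        refine (hM1 w hw hs h3).congr (fun U hU => ?_)
        rw [hcl U hU, hcw, one_mul]
      · rw [if_neg (fun h => h3 h.2)]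
        have hS := no_slots (L := L) h3
        refine Rp.zero.congr (fun U hU => ?_)
        rw [hS, subset_empty] at hU
        subst hU
        rw [hfl.fl_empty w hw, hG0 w h3, mul_zero]
    · have hcw : cl w = 0 := by unfold Pool.Agent.N929.EZ.cl; rw [if_neg hs]
      rw [if_neg (fun h => hs h.1)]
      refine Rp.zero.congr (fun U hU => ?_)
      rw [hcl U hU, hcw, zero_mul]
  · by_cases hn : 3 ≤ n
    · refine le_trans (le_of_eq ?_) (hM2 n hn)
      unfold KP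
      rw [sum_filter]
      refine sum_congr rfl (fun w hw => ?_)
      have hl := len_SW hw
      have hw' : w ∈ SW w.length := by rw [hl]; exact hw
      obtain ⟨e5, -⟩ := cl_st hfl hw'
      by_cases a1 : sq w = 1
      · rw [if_pos a1]
        by_cases a2 : 3 ≤ (st w).length
        · rw [if_pos ⟨e5.2 a1, a2⟩, if_pos a2]
        · rw [if_neg (fun h => a2 h.2), if_neg a2]
      · rw [if_neg a1, if_neg (fun h => a1 (e5.1 h.1))]
    · rw [sum_eq_zero]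
      · exact hb0 n
      · intro w hw
        have hl := len_SW hw
        have hw' : w ∈ SW w.length := by rw [hl]; exact hw
        have e6 := hfl.st_len w (by omega) hw'
        rw [if_neg]
        intro h
        omega

/-- analytic continuation for functionals of closed words -/
def PM (c : ℝ) : Prop := ∀ (C₁ : ℝ) (p : ℕ), 0 ≤ C₁ → ∃ C : ℝ, 0 < C ∧
    ∀ (G : List Dir → ℝ) (b : ℕ → ℝ), (∀ w, ¬ 3 ≤ w.length → G w = 0) →
      (∀ n, ∀ w ∈ KP n, |G w| ≤ C₁ * ((n : ℝ) + 1) ^ p) →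
      (∀ n, ∑ w ∈ KP n, |G w| ≤ b n) →
      (∀ n, b n ≤ C₁ * ((n : ℝ) + 1) ^ p * ((SW n).card : ℝ)) → Hp G b →
      ∃ f : ℂ → ℂ, Ext c H981.mu 2 (fun n => ∑ w ∈ KP n, G w) f ∧
        ∀ z ∈ Om c H981.mu 2, z ≠ 0 → cs 2 z < 1 →
          Summable (fun n => b n * xx c H981.mu 2 z ^ n) ∧
          ‖f z‖ ≤ C + ∑' n, b n * xx c H981.mu 2 z ^ n

theorem poly_main : ∃ c : ℝ, 0 < c ∧ c ≤ 1 / 4 ∧ PM c := by
  obtain ⟨μ, K, hμ, hK, hlow, hupp, -⟩ := s_gen
  have hmu := mu_eq hμ hK hlow hupp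
  obtain ⟨c, hc, hc4, h⟩ := acz (show 1 ≤ μ by linarith) hK hupp
  rw [hmu] at h
  refine ⟨c, hc, hc4, fun C₁ p hC₁ => ?_⟩
  obtain ⟨C, hC, h'⟩ := h C₁ p hC₁
  refine ⟨C, hC, fun G b hG0 hG hb hb2 hp => ?_⟩
  have hb0 : ∀ n, 0 ≤ b n := fun n => (sum_nonneg fun _ _ => abs_nonneg _).trans (hb n)
  obtain ⟨f, f1, f2, f3⟩ := h' (fun w => cl w * G w) b
    (fun n w hw => by
      rw [abs_mul, abs_of_nonneg (cl_nonneg w)]
      unfold Pool.Agent.N929.EZ.cl
      split_ifs with hs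
      · rw [one_mul]
        exact hG n w (by unfold KP; rw [mem_filter]; exact ⟨hw, hs⟩)
      · rw [zero_mul]
        positivity)
    (fun n => by
      refine le_trans (le_of_eq ?_) (hb n)
      rw [← sum_cl]
      refine sum_congr rfl fun w _ => ?_
      rw [abs_mul, abs_of_nonneg (cl_nonneg w)])
    hb2 (hr_of_hp hG0 hb0 hp)
  refine ⟨f, ⟨f1, fun z hz => ?_⟩, f3⟩
  have h1 := f2 z hz
  have e : ∀ n, az (fun w => cl w * G w) n = ∑ w ∈ KP n, G w := fun n => by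
    unfold az
    exact sum_cl n G
  simp only [e] at h1
  exact h1

/-- if-then-else for a hit -/
theorem Rp.ite_hit {E : Finset (ℤ × ℤ)} (c : (ℤ × ℤ) → Prop)
    [∀ U : Finset (ℤ × ℤ), Decidable (∃ q ∈ U, c q)] {Φ Ψ : Finset (ℤ × ℤ) → ℝ} {M : ℝ}
    (h : Rp E Φ M) (h' : Rp E Ψ M) :
    Rp E (fun U => if (∃ q ∈ U, c q) then Φ U else Ψ U) (3 * M) := by
  have hc := Rp.hit (E := E) c
  have hn : Rp E (fun U => 1 - (if (∃ q ∈ U, c q) then (1 : ℝ) else 0)) 1 := by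
    have h := Rp.ind (E := E) (T := E.filter c) (filter_subset _ _)
    refine h.congr (fun U hU => ?_)
    have e : Disjoint (E.filter c) U ↔ ¬ ∃ q ∈ U, c q := by
      rw [disjoint_left]
      constructor
      · rintro h1 ⟨q, hq, hc⟩
        exact h1 (mem_filter.2 ⟨hU hq, hc⟩) hq
      · intro h1 q hq hq'
        exact h1 ⟨q, hq', (mem_filter.1 hq).2⟩
    by_cases h1 : ∃ q ∈ U, c q
    · simp [e, h1]
    · simp [e, h1]
  refine (((hc.mul h).add (hn.mul h')).mono (le_of_eq (by ring))).congr (fun U hU => ?_)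
  by_cases h1 : ∃ q ∈ U, c q <;> simp [h1]

theorem Rp.const' {E : Finset (ℤ × ℤ)} {c M : ℝ} (h : |c| ≤ M) : Rp E (fun _ => c) M :=
  (Rp.const c).mono h

/-- functions of the extents -/
theorem ext_rep {L : Finset (ℤ × ℤ)} (hL : CF L) {st : List Dir → List Dir}
    {fl : List Dir → Finset (ℤ × ℤ) → List Dir} (hfl : Fill L 0 0 st fl) {w : List Dir}
    (hw : Em L 0 0 w) (g : ℤ → ℤ → ℝ) (M : ℝ)
    (hg : ∀ i j : ℤ, 0 ≤ i → i ≤ 2 → 0 ≤ j → j ≤ 2 →
      |g (mxx w - mnx w + i) (mxy w - mny w + j)| ≤ M) :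
    Rp (Sl L 0 0 w) (fun U => g (mxx (fl w U) - mnx (fl w U)) (mxy (fl w U) - mny (fl w U)))
      (81 * M) := by
  obtain ⟨x, hx⟩ : ∃ x, x = mxx w - mnx w := ⟨_, rfl⟩
  obtain ⟨y, hy⟩ : ∃ y, y = mxy w - mny w := ⟨_, rfl⟩
  rw [← hx, ← hy] at hg
  have h4 : ∀ i j : ℤ, 0 ≤ i → i ≤ 2 → 0 ≤ j → j ≤ 1 → Rp (Sl L 0 0 w)
      (fun U => if (∃ q ∈ U, q.2 + 1 = mny w) then g (x + i) (y + (j + 1)) else g (x + i) (y + j))
      (3 * M) := fun i j h1 h2 h3 h4 =>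
    Rp.ite_hit _ (Rp.const' (hg i (j + 1) h1 h2 (by omega) (by omega)))
      (Rp.const' (hg i j h1 h2 h3 (by omega)))
  have h3 : ∀ i : ℤ, 0 ≤ i → i ≤ 2 → Rp (Sl L 0 0 w)
      (fun U => if (∃ q ∈ U, q.2 = mxy w) then
        (if (∃ q ∈ U, q.2 + 1 = mny w) then g (x + i) (y + (1 + 1)) else g (x + i) (y + 1)) else
        (if (∃ q ∈ U, q.2 + 1 = mny w) then g (x + i) (y + (0 + 1)) else g (x + i) (y + 0)))
      (3 * (3 * M)) := fun i h1 h2 =>
    Rp.ite_hit _ (h4 i 1 h1 h2 (by norm_num) (by norm_num))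
      (h4 i 0 h1 h2 (by norm_num) (by norm_num))
  have h5 := Rp.ite_hit (fun q : ℤ × ℤ => q.1 = mxx w)
    (Rp.ite_hit (fun q : ℤ × ℤ => q.1 + 1 = mnx w) (h3 2 (by norm_num) (by norm_num))
      (h3 1 (by norm_num) (by norm_num)))
    (Rp.ite_hit (fun q : ℤ × ℤ => q.1 + 1 = mnx w) (h3 1 (by norm_num) (by norm_num))
      (h3 0 (by norm_num) (by norm_num)))
  refine (h5.mono (le_of_eq (by ring))).congr (fun U hU => ?_)
  obtain ⟨a1, a2, a3, a4, -⟩ := Pool.Agent.N426.EZ.xt L hL 0 0 st fl hfl w hw U hU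
  have e1 : mxx (fl w U) - mnx (fl w U) = x + (if ∃ q ∈ U, q.1 = mxx w then 1 else 0) +
      (if ∃ q ∈ U, q.1 + 1 = mnx w then 1 else 0) := by rw [a1, a2, hx]; ring
  have e2 : mxy (fl w U) - mny (fl w U) = y + (if ∃ q ∈ U, q.2 = mxy w then 1 else 0) +
      (if ∃ q ∈ U, q.2 + 1 = mny w then 1 else 0) := by rw [a3, a4, hy]; ring
  rw [e1, e2]
  by_cases b1 : ∃ q ∈ U, q.1 = mxx w <;> by_cases b2 : ∃ q ∈ U, q.1 + 1 = mnx w <;>
    by_cases b3 : ∃ q ∈ U, q.2 = mxy w <;> by_cases b4 : ∃ q ∈ U, q.2 + 1 = mny w <;>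
    simp only [b1, b2, b3, b4, if_true, if_false, add_zero] <;> congr 1 <;> ring

end

end Run7.h106.AC
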