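import Pool.Agent.Run7.h106.AC.Poly

/-!
# Analytic continuation: the area and the extents of polygons
-/

set_option autoImplicit false
set_option linter.unusedVariables false

namespace Run7.h106.AC

open Pool.Agent.H976R2 Pool.Agent.H976R2.Dir Finset Filter Topology
open Pool.Agent.N929.EX Pool.Agent.N929.EY Pool.Agent.N929.EZ
open Pool.Agent.N929.AC (Om xx cs Ext om_star s_omg)
open Pool.Agent.H739K (KP ar)
open scoped Classical

noncomputable section

/-- the area is at most of order `n ^ 2` -/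
theorem ar_le {n : ℕ} (hn : 3 ≤ n) {w : List Dir} (hw : w ∈ KP n) :
    (ar w : ℝ) ≤ 4 * ((n : ℝ) + 1) ^ 2 := by
  obtain ⟨hwn, hs, hl⟩ := KP_mem hw
  subst hl
  have hl := Pool.Agent.H739K.F2aux.loop_of Pool.Agent.H739K.CONV_proof hn (mem_SW.1 hwn).2 hs
  have h4 : ar w ≤ (2 * (w.length + 1)) ^ 2 := by
    have : NeZero (w.length + 1) := ⟨by omega⟩
    exact Pool.Agent.H924P.all_area hl
  have : (ar w : ℝ) ≤ (2 * ((w.length : ℝ) + 1)) ^ 2 := by exact_mod_cast h4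
  nlinarith

/-- the closed words -/
theorem mem_KP {n : ℕ} {w : List Dir} (hw : w ∈ SW n) (hs : sq w = 1) : w ∈ KP n := by
  unfold KP
  rw [mem_filter]
  exact ⟨hw, hs⟩

/-- representation of the powers of the area -/
theorem area_rep {L : Finset (ℤ × ℤ)} (hL : CF L) {st : List Dir → List Dir}
    {fl : List Dir → Finset (ℤ × ℤ) → List Dir} (hfl : Fill L 0 0 st fl) {w : List Dir}
    (hw : Em L 0 0 w) (hs : sq w = 1) (h3 : 3 ≤ w.length) (k : ℕ) :
    Rp (Sl L 0 0 w) (fun U => (ar (fl w U) : ℝ) ^ k)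
      (((ar w : ℝ) + 2 * ((Sl L 0 0 w).card : ℝ)) ^ k) := by
  have h1 := ((Rp.const (E := Sl L 0 0 w) (ar w : ℝ)).add
    (Rp.lin (E := Sl L 0 0 w) (sg w))).pow k
  refine (h1.mono (le_of_eq ?_)).congr (fun U hU => ?_)
  · rw [abs_of_nonneg (Nat.cast_nonneg (α := ℝ) (ar w))]
    congr 3
    rw [sum_congr rfl (fun q _ => sg_abs w q)]
    simp
  · rw [ar_fl hL hfl hw h3 hs hU]

/-- the representing functional in terms of the original word -/
theorem area_st {L : Finset (ℤ × ℤ)} (hL : CF L) {st : List Dir → List Dir}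
    {fl : List Dir → Finset (ℤ × ℤ) → List Dir} (hfl : Fill L 0 0 st fl) {n : ℕ} {w : List Dir}
    (hw : w ∈ KP n) (h3 : 3 ≤ (st w).length) :
    (ar (st w) : ℝ) + 2 * ((Sl L 0 0 (st w)).card : ℝ) ≤ (ar w : ℝ) + 3 * ((n : ℝ) + 1) := by
  obtain ⟨hwn, hs, hl⟩ := KP_mem hw
  have hw' : w ∈ SW w.length := by rw [hl]; exact hwn
  obtain ⟨e5, e1, e3, e2⟩ := cl_st hfl hw'
  have e6 := sl_card hL (a := 0) (l := 0) (st w)
  have e7 := hfl.st_len w (by omega) hw'
  have e8 : ((Sl L 0 0 (st w)).card : ℝ) ≤ (n : ℝ) + 1 := by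
    have : (Sl L 0 0 (st w)).card ≤ n + 1 := by omega
    exact_mod_cast this
  have e9 := ar_fl hL hfl e1 h3 (e5.2 hs) e3
  rw [e2] at e9
  have a1 : |∑ q ∈ Oc L 0 0 w, sg (st w) q| ≤ ((Oc L 0 0 w).card : ℝ) := by
    refine (abs_sum_le_sum_abs _ _).trans ?_
    rw [sum_congr rfl (fun q _ => sg_abs (st w) q)]
    simp
  have a2 := (abs_le.1 a1).1
  have a3 : ((Oc L 0 0 w).card : ℝ) ≤ (n : ℝ) + 1 := by
    have : (Oc L 0 0 w).card ≤ n + 1 := by omega
    exact_mod_cast this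
  linarith

/-- the numbers of closed words -/
theorem KP_le (n : ℕ) : ((KP n).card : ℝ) ≤ ((SW n).card : ℝ) := by
  unfold KP
  exact_mod_cast card_filter_le _ _

/-- the constant for the moment of order `k` -/
def cK (k : ℕ) : ℝ := 2 ^ k * (1 + 12 ^ k)

theorem cK_ge (k : ℕ) : 1 ≤ cK k := by
  unfold cK
  have h1 : (1 : ℝ) ≤ 2 ^ k := one_le_pow₀ (by norm_num)
  have h2 : (1 : ℝ) ≤ 12 ^ k := one_le_pow₀ (by norm_num)
  nlinarith

theorem Gk1_sum (k : ℕ) {n : ℕ} (hn : 3 ≤ n) :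
    ∑ w ∈ KP n, Gk1 k w = ∑ w ∈ KP n, (ar w : ℝ) ^ k := by
  refine sum_congr rfl (fun w hw => ?_)
  have := (KP_mem hw).2.2
  unfold Gk1
  rw [if_pos (by omega)]

theorem Gk1_sum_small (k : ℕ) {n : ℕ} (hn : ¬ 3 ≤ n) : ∑ w ∈ KP n, Gk1 k w = 0 := by
  refine sum_eq_zero (fun w hw => ?_)
  have := (KP_mem hw).2.2
  unfold Gk1
  rw [if_neg (by omega)]

theorem KP_odd {n : ℕ} (hn : n % 2 = 0) : KP n = ∅ :=
  card_eq_zero.1 (Pool.Agent.N929.AC.KP_even hn)

theorem area_hp (k : ℕ) : Hp (Gk1 k) (fun n => cK k * ∑ w ∈ KP n, Gk1 k w) := by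
  intro L hL st fl hfl
  refine ⟨fun w => ((ar w : ℝ) + 2 * ((Sl L 0 0 w).card : ℝ)) ^ k, fun w => by positivity,
    fun w hw hs h3 => ?_, fun n hn => ?_⟩
  · refine (area_rep hL hfl hw hs h3 k).congr (fun U hU => ?_)
    unfold Gk1
    rw [if_pos (by rw [hfl.fl_len w U hw hU]; omega)]
  · beta_reduce
    rw [Gk1_sum k hn]
    rcases Nat.mod_two_eq_zero_or_one n with he | ho
    · rw [KP_odd he]
      simp
    have h1 : ∀ w ∈ KP n, (if 3 ≤ (st w).length then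
        ((ar (st w) : ℝ) + 2 * ((Sl L 0 0 (st w)).card : ℝ)) ^ k else 0) ≤
        2 ^ k * ((ar w : ℝ) ^ k + (3 * ((n : ℝ) + 1)) ^ k) := by
      intro w hw
      split_ifs with h3
      · calc ((ar (st w) : ℝ) + 2 * ((Sl L 0 0 (st w)).card : ℝ)) ^ k
            ≤ ((ar w : ℝ) + 3 * ((n : ℝ) + 1)) ^ k :=
              pow_le_pow_left₀ (by positivity) (area_st hL hfl hw h3) k
          _ ≤ (2 * max (ar w : ℝ) (3 * ((n : ℝ) + 1))) ^ k := by
              refine pow_le_pow_left₀ (by positivity) ?_ k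
              have := le_max_left (ar w : ℝ) (3 * ((n : ℝ) + 1))
              have := le_max_right (ar w : ℝ) (3 * ((n : ℝ) + 1))
              linarith
          _ ≤ 2 ^ k * ((ar w : ℝ) ^ k + (3 * ((n : ℝ) + 1)) ^ k) := by
              rw [mul_pow]
              refine mul_le_mul_of_nonneg_left ?_ (by positivity)
              rcases le_total (ar w : ℝ) (3 * ((n : ℝ) + 1)) with hh | hh
              · rw [max_eq_right hh]
                have : 0 ≤ (ar w : ℝ) ^ k := by positivity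
                linarith
              · rw [max_eq_left hh]
                have : 0 ≤ (3 * ((n : ℝ) + 1)) ^ k := by positivity
                linarith
      · positivity
    refine (sum_le_sum h1).trans ?_
    rw [← mul_sum, sum_add_distrib, sum_const, nsmul_eq_mul]
    have h2 := area_low_pow hn ho k
    have h4 : (0 : ℝ) ≤ ∑ w ∈ KP n, (ar w : ℝ) ^ k := sum_nonneg (fun _ _ => by positivity)
    have h5 : ((KP n).card : ℝ) * (3 * ((n : ℝ) + 1)) ^ k ≤
        12 ^ k * ∑ w ∈ KP n, (ar w : ℝ) ^ k := by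
      calc ((KP n).card : ℝ) * (3 * ((n : ℝ) + 1)) ^ k =
            12 ^ k * ((((n : ℝ) + 1) / 4) ^ k * ((KP n).card : ℝ)) := by
            have : (3 * ((n : ℝ) + 1)) ^ k = 12 ^ k * (((n : ℝ) + 1) / 4) ^ k := by
              rw [← mul_pow]
              congr 1
              ring
            rw [this]
            ring
        _ ≤ _ := mul_le_mul_of_nonneg_left h2 (by positivity)
    unfold cK
    calc 2 ^ k * (∑ w ∈ KP n, (ar w : ℝ) ^ k + ((KP n).card : ℝ) * (3 * ((n : ℝ) + 1)) ^ k)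
        ≤ 2 ^ k * (∑ w ∈ KP n, (ar w : ℝ) ^ k + 12 ^ k * ∑ w ∈ KP n, (ar w : ℝ) ^ k) := by
          gcongr
      _ = _ := by ring

/-- the value at the comparison point -/
theorem at_xx {c : ℝ} (hc : 0 < c) (hc4 : c ≤ 1 / 4) {u : ℕ → ℝ} (hu : ∀ n, 0 ≤ u n) {f : ℂ → ℂ}
    (hf : Ext c H981.mu 2 u f) {z : ℂ} (hz1 : cs 2 z < 1) (A : ℝ) (hA : 0 ≤ A) :
    ∑' n, A * u n * xx c H981.mu 2 z ^ n = A * ‖f (xx c H981.mu 2 z : ℂ)‖ := by
  have hμ := H981.mu_pos
  have habs := abs_le.1 (cs_abs 2 z)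
  have hx : H981.mu * xx c H981.mu 2 z = 1 - c * (1 - cs 2 z) := by
    unfold xx
    field_simp
  have hx0 : 0 < xx c H981.mu 2 z := by
    unfold xx
    refine div_pos ?_ hμ
    nlinarith
  have h1 := hf.2 (xx c H981.mu 2 z : ℂ) (by
    rw [Complex.norm_real, Real.norm_of_nonneg hx0.le, hx]
    nlinarith)
  have h2 : HasSum (fun n => u n * xx c H981.mu 2 z ^ n) (f (xx c H981.mu 2 z : ℂ)).re := by
    have h3 := Complex.hasSum_re h1
    refine (congrArg (fun g => HasSum g (f (xx c H981.mu 2 z : ℂ)).re) ?_).mp h3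
    funext n
    rw [← Complex.ofReal_pow, ← Complex.ofReal_mul, Complex.ofReal_re]
  have h4 : ‖f (xx c H981.mu 2 z : ℂ)‖ = ∑' n, u n * xx c H981.mu 2 z ^ n := by
    have h5 : f (xx c H981.mu 2 z : ℂ) = ((∑' n, u n * xx c H981.mu 2 z ^ n : ℝ) : ℂ) := by
      rw [← h1.tsum_eq, Complex.ofReal_tsum]
      refine tsum_congr fun n => ?_
      push_cast
      rfl
    rw [h5, Complex.norm_real, Real.norm_of_nonneg]
    exact tsum_nonneg fun n => mul_nonneg (hu n) (pow_nonneg hx0.le n)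
  rw [h4, ← tsum_mul_left]
  refine tsum_congr fun n => ?_
  ring

/-- analytic continuation for the moments of the area -/
theorem area_ac {c : ℝ} (hc : 0 < c) (hc4 : c ≤ 1 / 4) (h : PM c) (k : ℕ) :
    ∃ K : ℝ, 0 < K ∧ ∃ f : ℂ → ℂ, Ext c H981.mu 2 (fun n => ∑ w ∈ KP n, Gk1 k w) f ∧
      ∀ z ∈ Om c H981.mu 2, z ≠ 0 → cs 2 z < 1 →
        ‖f z‖ ≤ K * (1 + ‖f (xx c H981.mu 2 z : ℂ)‖) := by
  have hcK := cK_ge k
  obtain ⟨C, hC, h'⟩ := h (cK k * 4 ^ k) (2 * k) (by positivity)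
  have hG : ∀ n, ∀ w ∈ KP n, |Gk1 k w| ≤ 4 ^ k * ((n : ℝ) + 1) ^ (2 * k) := by
    intro n w hw
    rw [abs_of_nonneg (Gk1_nonneg k w)]
    have hl := (KP_mem hw).2.2
    unfold Gk1
    split_ifs with h3
    · rw [hl] at h3
      calc (ar w : ℝ) ^ k ≤ (4 * ((n : ℝ) + 1) ^ 2) ^ k :=
            pow_le_pow_left₀ (Nat.cast_nonneg _) (ar_le h3 hw) k
        _ = 4 ^ k * ((n : ℝ) + 1) ^ (2 * k) := by rw [mul_pow, ← pow_mul]
    · positivity
  have hu : ∀ n, 0 ≤ ∑ w ∈ KP n, Gk1 k w := fun n => sum_nonneg fun w _ => Gk1_nonneg k w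
  obtain ⟨f, f1, f2⟩ := h' (Gk1 k) (fun n => cK k * ∑ w ∈ KP n, Gk1 k w)
    (fun w hw => by unfold Gk1; rw [if_neg hw])
    (fun n w hw => (hG n w hw).trans (by
      have : (0 : ℝ) ≤ 4 ^ k * ((n : ℝ) + 1) ^ (2 * k) := by positivity
      nlinarith))
    (fun n => by
      rw [sum_congr rfl fun w _ => abs_of_nonneg (Gk1_nonneg k w)]
      have := hu n
      nlinarith)
    (fun n => by
      have h1 : ∑ w ∈ KP n, Gk1 k w ≤ ((KP n).card : ℝ) * (4 ^ k * ((n : ℝ) + 1) ^ (2 * k)) := by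
        rw [← nsmul_eq_mul]
        exact sum_le_card_nsmul _ _ _ fun w hw => (le_abs_self _).trans (hG n w hw)
      calc cK k * ∑ w ∈ KP n, Gk1 k w ≤
            cK k * (((KP n).card : ℝ) * (4 ^ k * ((n : ℝ) + 1) ^ (2 * k))) :=
            mul_le_mul_of_nonneg_left h1 (by linarith)
        _ ≤ cK k * (((SW n).card : ℝ) * (4 ^ k * ((n : ℝ) + 1) ^ (2 * k))) := by
            have := KP_le n
            gcongr
        _ = _ := by ring)
    (area_hp k)
  refine ⟨max C (cK k), lt_max_of_lt_left hC, f, f1, fun z hz hz0 hz1 => ?_⟩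
  obtain ⟨-, h2⟩ := f2 z hz hz0 hz1
  rw [at_xx hc hc4 hu f1 hz1 (cK k) (by linarith)] at h2
  have h3 := norm_nonneg (f (xx c H981.mu 2 z : ℂ))
  have h4 := le_max_left C (cK k)
  have h5 := le_max_right C (cK k)
  nlinarith

/-- the primitive of the series -/
theorem prim_ext {c : ℝ} (hc : 0 < c) {u : ℕ → ℝ} {f : ℂ → ℂ} (h : Ext c H981.mu 2 u f) :
    ∃ F : ℂ → ℂ, (∀ z ∈ Om c H981.mu 2, HasDerivAt F (f z / 2) z) ∧
      ∀ z : ℂ, H981.mu * ‖z‖ < 1 →
        HasSum (fun n => ((u n / (2 * ((n : ℝ) + 1)) : ℝ) : ℂ) * z ^ (n + 1)) (F z) := by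
  have hμ : 1 ≤ H981.mu := by linarith [Pool.Agent.H739K.mu_ge]
  have hμ0 : 0 < H981.mu := by linarith
  obtain ⟨o1, o2, o3, -⟩ := s_omg c H981.mu 2 hc hμ (by norm_num)
  have h0 : (0 : ℂ) ∈ Om c H981.mu 2 := o3 0 (by simp)
  have hball : ∀ z : ℂ, z ∈ Metric.ball (0 : ℂ) (1 / H981.mu) ↔ H981.mu * ‖z‖ < 1 := by
    intro z
    rw [mem_ball_zero_iff, lt_div_iff₀ hμ0, mul_comm]
  obtain ⟨F, f1, f3, -, f2⟩ := Pool.Agent.N353.AC.prim (Om c H981.mu 2) (1 / H981.mu)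
    (fun n => (u n : ℂ)) f o1
    (fun z hz t ht0 ht1 => om_star hμ h0 z hz t ht0 ht1) (by positivity)
    (fun z hz => o3 z ((hball z).1 hz)) h.1 (fun z hz => h.2 z ((hball z).1 hz))
  refine ⟨fun z => F z / 2, fun z hz => (f3 z hz).div_const 2, fun z hz => ?_⟩
  have g1 := (f2 z ((hball z).2 hz)).div_const 2
  refine (congrArg (fun g => HasSum g (F z / 2)) ?_).mp g1
  funext n
  have e3 : ((n : ℂ) + 1) ≠ 0 := Nat.cast_add_one_ne_zero n
  push_cast
  field_simp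

/-- the series in terms of the polygons of perimeter `2 (n + 2)` -/
theorem poly_series {c : ℝ} (hc : 0 < c) {G : List Dir → ℝ}
    (hG0 : ∀ w, ¬ 3 ≤ w.length → G w = 0) {f : ℂ → ℂ}
    (h : Ext c H981.mu 2 (fun n => ∑ w ∈ KP n, G w) f) :
    ∃ F : ℂ → ℂ, (∀ z ∈ Om c H981.mu 2, HasDerivAt F (f z / 2) z) ∧
      ∀ z : ℂ, H981.mu * ‖z‖ < 1 →
        HasSum (fun n : ℕ => (((∑ w ∈ KP (2 * (n + 2) - 1), G w) /
          (4 * ((n + 2 : ℕ) : ℝ)) : ℝ) : ℂ) * z ^ (2 * (n + 2))) (F z) := by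
  obtain ⟨F, h1, h2⟩ := prim_ext hc h
  refine ⟨F, h1, fun z hz => ?_⟩
  have h3 := h2 z hz
  have hinj : Function.Injective (fun n : ℕ => 2 * (n + 2) - 1) := fun a b h => by
    simp only at h
    omega
  rw [← hinj.hasSum_iff] at h3
  · refine (congrArg (fun g => HasSum g (F z)) ?_).mp h3
    funext n
    show (((∑ w ∈ KP (2 * (n + 2) - 1), G w) / (2 * (((2 * (n + 2) - 1 : ℕ) : ℝ) + 1)) : ℝ) : ℂ) *
      z ^ (2 * (n + 2) - 1 + 1) = _
    have e1 : 2 * (n + 2) - 1 + 1 = 2 * (n + 2) := by omega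
    have e2 : (((2 * (n + 2) - 1 : ℕ) : ℝ) + 1) = 2 * ((n + 2 : ℕ) : ℝ) := by
      have : ((2 * (n + 2) - 1 + 1 : ℕ) : ℝ) = ((2 * (n + 2) : ℕ) : ℝ) := by rw [e1]
      push_cast at this ⊢
      linarith
    rw [e1, e2]
    congr 3
    ring
  · intro m hm
    have e : ∑ w ∈ KP m, G w = 0 := by
      rcases Nat.mod_two_eq_zero_or_one m with he | ho
      · rw [KP_odd he, sum_empty]
      · have hm3 : ¬ 3 ≤ m := fun h3 => hm ⟨(m + 1) / 2 - 2, by simp only; omega⟩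
        refine sum_eq_zero fun w hw => hG0 w ?_
        rw [(KP_mem hw).2.2]
        exact hm3
    simp [e]

/-- the area and the extents -/
def GM (k : ℕ) (g : ℤ → ℤ → ℝ) (w : List Dir) : ℝ :=
  if 3 ≤ w.length then (ar w : ℝ) ^ k * g (mxx w - mnx w) (mxy w - mny w) else 0

theorem GM_le {k P : ℕ} {B : ℝ} {g : ℤ → ℤ → ℝ}
    (hg : ∀ a b : ℤ, 0 ≤ a → 0 ≤ b → |g a b| ≤ B * ((a : ℝ) + b + 1) ^ P) (hB : 0 ≤ B) (n : ℕ)
    (w : List Dir) (hw : w ∈ KP n) :
    |GM k g w| ≤ 7 ^ k * (81 * B) * 5 ^ P * ((n : ℝ) + 1) ^ (2 * k + P) := by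
  have hl := (KP_mem hw).2.2
  have hn0 : (0 : ℝ) ≤ n := Nat.cast_nonneg n
  unfold GM
  split_ifs with h3
  · rw [hl] at h3
    rw [abs_mul, abs_of_nonneg (by positivity : (0 : ℝ) ≤ (ar w : ℝ) ^ k)]
    have h1 : (ar w : ℝ) ^ k ≤ 7 ^ k * ((n : ℝ) + 1) ^ (2 * k) := by
      calc (ar w : ℝ) ^ k ≤ (4 * ((n : ℝ) + 1) ^ 2) ^ k :=
            pow_le_pow_left₀ (Nat.cast_nonneg _) (ar_le h3 hw) k
        _ ≤ (7 * ((n : ℝ) + 1) ^ 2) ^ k := by
            refine pow_le_pow_left₀ (by positivity) ?_ k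
            nlinarith [sq_nonneg ((n : ℝ) + 1)]
        _ = 7 ^ k * ((n : ℝ) + 1) ^ (2 * k) := by rw [mul_pow, ← pow_mul]
    obtain ⟨e1, e2⟩ := ext_le w
    obtain ⟨e3, e4⟩ := ext_nonneg w
    have h2 := hg (mxx w - mnx w) (mxy w - mny w) (by omega) (by omega)
    have h4 : |g (mxx w - mnx w) (mxy w - mny w)| ≤ (81 * B) * (5 ^ P * ((n : ℝ) + 1) ^ P) := by
      refine h2.trans ?_
      have h5 : (((mxx w - mnx w : ℤ) : ℝ)) + ((mxy w - mny w : ℤ) : ℝ) + 1 ≤ 5 * ((n : ℝ) + 1) := by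
        have a1 : ((mxx w - mnx w : ℤ) : ℝ) ≤ ((w.length : ℤ) : ℝ) := by exact_mod_cast e1
        have a2 : ((mxy w - mny w : ℤ) : ℝ) ≤ ((w.length : ℤ) : ℝ) := by exact_mod_cast e2
        have a3 : ((w.length : ℤ) : ℝ) = n := by rw [hl]; simp
        linarith
      have h6 : (0 : ℝ) ≤ (((mxx w - mnx w : ℤ) : ℝ)) + ((mxy w - mny w : ℤ) : ℝ) + 1 := by
        have a1 : (0 : ℝ) ≤ ((mxx w - mnx w : ℤ) : ℝ) := by exact_mod_cast (by omega : 0 ≤ mxx w - mnx w)
        have a2 : (0 : ℝ) ≤ ((mxy w - mny w : ℤ) : ℝ) := by exact_mod_cast (by omega : 0 ≤ mxy w - mny w)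
        linarith
      rw [← mul_pow]
      calc B * ((((mxx w - mnx w : ℤ) : ℝ)) + ((mxy w - mny w : ℤ) : ℝ) + 1) ^ P
          ≤ B * (5 * ((n : ℝ) + 1)) ^ P := by gcongr
        _ ≤ (81 * B) * (5 * ((n : ℝ) + 1)) ^ P := by
            refine mul_le_mul_of_nonneg_right (by linarith) (by positivity)
    calc (ar w : ℝ) ^ k * |g (mxx w - mnx w) (mxy w - mny w)|
        ≤ (7 ^ k * ((n : ℝ) + 1) ^ (2 * k)) * ((81 * B) * (5 ^ P * ((n : ℝ) + 1) ^ P)) :=
          mul_le_mul h1 h4 (abs_nonneg _) (by positivity)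
      _ = _ := by rw [pow_add]; ring
  · rw [abs_zero]
    positivity

/-- analytic continuation for the moments of the area with functions of the extents -/
theorem mix_ac {c : ℝ} (h : PM c) (k P : ℕ) {B : ℝ} (hB : 0 ≤ B) {g : ℤ → ℤ → ℝ}
    (hg : ∀ a b : ℤ, 0 ≤ a → 0 ≤ b → |g a b| ≤ B * ((a : ℝ) + b + 1) ^ P) :
    ∃ f : ℂ → ℂ, Ext c H981.mu 2 (fun n => ∑ w ∈ KP n, GM k g w) f := by
  obtain ⟨C, hC, h'⟩ := h (7 ^ k * (81 * B) * 5 ^ P) (2 * k + P) (by positivity)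
  obtain ⟨f, f1, -⟩ := h' (GM k g)
    (fun n => 7 ^ k * (81 * B) * 5 ^ P * ((n : ℝ) + 1) ^ (2 * k + P) * ((KP n).card : ℝ))
    (fun w hw => by unfold GM; rw [if_neg hw])
    (fun n w hw => GM_le hg hB n w hw)
    (fun n => by
      have := sum_le_card_nsmul (KP n) (fun w => |GM k g w|) _ fun w hw => GM_le hg hB n w hw
      rw [nsmul_eq_mul] at this
      linarith)
    (fun n => by
      have := KP_le n
      gcongr)
    (fun L hL st fl hfl => by
      refine ⟨fun w => ((ar w : ℝ) + 2 * ((Sl L 0 0 w).card : ℝ)) ^ k *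
        (81 * (B * ((((mxx w - mnx w : ℤ) : ℝ)) + ((mxy w - mny w : ℤ) : ℝ) + 5) ^ P)),
        fun w => ?_, fun w hw hs h3 => ?_, fun n hn => ?_⟩
      · obtain ⟨e3, e4⟩ := ext_nonneg w
        have a1 : (0 : ℝ) ≤ ((mxx w - mnx w : ℤ) : ℝ) := by exact_mod_cast (by omega : 0 ≤ mxx w - mnx w)
        have a2 : (0 : ℝ) ≤ ((mxy w - mny w : ℤ) : ℝ) := by exact_mod_cast (by omega : 0 ≤ mxy w - mny w)
        positivity
      · obtain ⟨e3, e4⟩ := ext_nonneg w
        have a1 : (0 : ℝ) ≤ ((mxx w - mnx w : ℤ) : ℝ) := by exact_mod_cast (by omega : 0 ≤ mxx w - mnx w)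
        have a2 : (0 : ℝ) ≤ ((mxy w - mny w : ℤ) : ℝ) := by exact_mod_cast (by omega : 0 ≤ mxy w - mny w)
        have h1 := area_rep hL hfl hw hs h3 k
        have h2 := ext_rep hL hfl hw g
          (B * ((((mxx w - mnx w : ℤ) : ℝ)) + ((mxy w - mny w : ℤ) : ℝ) + 5) ^ P)
          (fun i j h1 h2 h3 h4 => by
            refine (hg _ _ (by omega) (by omega)).trans ?_
            refine mul_le_mul_of_nonneg_left (pow_le_pow_left₀ ?_ ?_ P) hB
            · have b1 : (0 : ℝ) ≤ i := by exact_mod_cast h1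
              have b2 : (0 : ℝ) ≤ j := by exact_mod_cast h3
              push_cast at a1 a2 ⊢
              linarith
            · have b1 : (i : ℝ) ≤ 2 := by exact_mod_cast h2
              have b2 : (j : ℝ) ≤ 2 := by exact_mod_cast h4
              push_cast
              linarith)
        refine (h1.mul h2).congr (fun U hU => ?_)
        unfold GM
        rw [if_pos (by rw [hfl.fl_len w U hw hU]; omega)]
      · beta_reduce
        rw [mul_comm _ ((KP n).card : ℝ), ← nsmul_eq_mul]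
        refine sum_le_card_nsmul _ _ _ fun w hw => ?_
        split_ifs with h3
        · obtain ⟨hwn, hs, hl⟩ := KP_mem hw
          have hw' : w ∈ SW w.length := by rw [hl]; exact hwn
          have e7 := hfl.st_len w (by omega) hw'
          have e1 := area_st hL hfl hw h3
          have e2 := ar_le hn hw
          have hn0 : (0 : ℝ) ≤ n := Nat.cast_nonneg n
          have e3 : ((ar (st w) : ℝ) + 2 * ((Sl L 0 0 (st w)).card : ℝ)) ^ k ≤
              7 ^ k * ((n : ℝ) + 1) ^ (2 * k) := by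
            calc ((ar (st w) : ℝ) + 2 * ((Sl L 0 0 (st w)).card : ℝ)) ^ k
                ≤ (7 * ((n : ℝ) + 1) ^ 2) ^ k := by
                  refine pow_le_pow_left₀ (by positivity) ?_ k
                  nlinarith
              _ = 7 ^ k * ((n : ℝ) + 1) ^ (2 * k) := by rw [mul_pow, ← pow_mul]
          obtain ⟨c1, c2⟩ := ext_le (st w)
          obtain ⟨c3, c4⟩ := ext_nonneg (st w)
          have h5 : (((mxx (st w) - mnx (st w) : ℤ) : ℝ)) + ((mxy (st w) - mny (st w) : ℤ) : ℝ) + 5 ≤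
              5 * ((n : ℝ) + 1) := by
            have a1 : ((mxx (st w) - mnx (st w) : ℤ) : ℝ) ≤ (((st w).length : ℤ) : ℝ) := by
              exact_mod_cast c1
            have a2 : ((mxy (st w) - mny (st w) : ℤ) : ℝ) ≤ (((st w).length : ℤ) : ℝ) := by
              exact_mod_cast c2
            have a3 : (((st w).length : ℤ) : ℝ) ≤ n := by
              have : (st w).length ≤ n := by omega
              exact_mod_cast this
            linarith
          have h6 : (0 : ℝ) ≤ (((mxx (st w) - mnx (st w) : ℤ) : ℝ)) +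
              ((mxy (st w) - mny (st w) : ℤ) : ℝ) + 5 := by
            have a1 : (0 : ℝ) ≤ ((mxx (st w) - mnx (st w) : ℤ) : ℝ) := by
              exact_mod_cast (by omega : 0 ≤ mxx (st w) - mnx (st w))
            have a2 : (0 : ℝ) ≤ ((mxy (st w) - mny (st w) : ℤ) : ℝ) := by
              exact_mod_cast (by omega : 0 ≤ mxy (st w) - mny (st w))
            linarith
          calc _ ≤ (7 ^ k * ((n : ℝ) + 1) ^ (2 * k)) * (81 * (B * (5 * ((n : ℝ) + 1)) ^ P)) := by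
                refine mul_le_mul e3 ?_ (by positivity) (by positivity)
                gcongr
            _ = _ := by rw [mul_pow 5, pow_add]; ring
        · positivity)
  exact ⟨f, f1⟩

end

end Run7.h106.AC
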