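import Pool.Agent.Run7.h106.AC.PolyApp

/-!
# Analytic continuation for polygons: transfer to loops
-/

set_option autoImplicit false
set_option linter.unusedVariables false

namespace Run7.h106.AC

open Pool.Agent.H976R2 Pool.Agent.H976R2.Dir Finset Filter Topology
open Pool.Agent.N929.EX Pool.Agent.N929.EY Pool.Agent.N929.EZ
open Pool.Agent.N929.AC (Om xx cs Ext om_star s_omg)
open Pool.Agent.H739K (KP ar lp)
open scoped Classical

noncomputable section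

/-- the connective constant -/
theorem c_lim : Tendsto (fun n : ℕ => (({ω : Fin (n + 1) → ℤ × ℤ | IsSAW n ω}.ncard : ℕ) : ℝ) ^
    (1 / (n : ℝ))) atTop (𝓝 H981.mu) := by
  refine H981.tendsto_root.congr (fun n => ?_)
  rw [H981.cr'_eq]
  rfl

/-- the domain -/
theorem dom_facts {c : ℝ} (hc : 0 < c) : IsOpen (Om c H981.mu 2) ∧ IsPreconnected (Om c H981.mu 2) ∧
    (∀ z : ℂ, H981.mu * ‖z‖ < 1 → z ∈ Om c H981.mu 2) ∧
    ∀ z : ℂ, H981.mu * ‖z‖ = 1 → z ≠ ((1 / H981.mu : ℝ) : ℂ) →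
      z ≠ ((-(1 / H981.mu) : ℝ) : ℂ) → z ∈ Om c H981.mu 2 := by
  have hμ : 1 ≤ H981.mu := by linarith [Pool.Agent.H739K.mu_ge]
  have hμ0 : 0 < H981.mu := by linarith
  obtain ⟨o1, o2, o3, -⟩ := s_omg c H981.mu 2 hc hμ (by norm_num)
  refine ⟨o1, o2, o3, fun z hz z1 z2 => ?_⟩
  refine (Pool.Agent.N929.AC.mem_Om hc hz fun h3 => ?_).1
  have hn : ‖z‖ = 1 / H981.mu := by field_simp; linarith
  rw [hn] at h3
  rcases sq_eq_sq_iff_eq_or_eq_neg.1 h3 with h4 | h4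
  · exact z1 h4
  · exact z2 (by rw [h4]; push_cast; rfl)

/-- the height of the loop of a word -/
theorem height_eq (w : List Dir) :
    (Pool.Agent.H924P.height (w.length + 1) (Pool.Agent.H739K.lp (w.length + 1) w) : ℤ) =
      mxy w - mny w := by
  have hv : ∀ p, vis w p → ∃ t, t ≤ w.length ∧ Lip.PP w t = p := by
    rintro p ⟨a, b, h1, h2, h3⟩
    refine ⟨a.length, by rw [h1]; simp, ?_⟩
    unfold Lip.PP
    have : w.take a.length = a := by rw [h1]; simp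
    rw [this, h2, h3]
  have hv' : ∀ t, vis w (Lip.PP w t) := fun t =>
    ⟨w.take t, w.drop t, (List.take_append_drop t w).symm, rfl, rfl⟩
  refine Pool.Agent.H739K.BOXx.height_of w (mxy w) (mny w) ?_ ?_ ?_
  · intro p hp
    obtain ⟨t, ht, rfl⟩ := hv p hp
    exact ⟨mny_le w ht, le_mxy w ht⟩
  · obtain ⟨t, ht, h⟩ := mxy_att w
    exact ⟨_, hv' t, h⟩
  · obtain ⟨t, ht, h⟩ := mny_att w
    exact ⟨_, hv' t, h⟩

/-- sums over loops -/
theorem loop_sum {n : ℕ} (hn : 2 ≤ n) (φ : (ZMod (2 * n) → ℤ × ℤ) → ℝ) :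
    ∑ᶠ f ∈ {f : ZMod (2 * n) → ℤ × ℤ | Pool.Agent.H924P.IsLoop (2 * n) f}, φ f =
      ∑ w ∈ KP (2 * n - 1), φ (lp (2 * n) w) :=
  (Pool.Agent.H739K.CONV_proof n hn).1 φ

theorem width_word {n : ℕ} (hn : 2 ≤ n) {w : List Dir} (hw : w ∈ KP (2 * n - 1)) :
    (Pool.Agent.H924P.width (2 * n) (lp (2 * n) w) : ℤ) = mxx w - mnx w ∧
    (Pool.Agent.H924P.height (2 * n) (lp (2 * n) w) : ℤ) = mxy w - mny w ∧
    Pool.Agent.H924P.area (2 * n) (lp (2 * n) w) = ar w := by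
  have hl := (KP_mem hw).2.2
  have e : w.length + 1 = 2 * n := by omega
  have h1 := width_eq w
  have h2 := height_eq w
  rw [e] at h1 h2
  refine ⟨h1, h2, ?_⟩
  unfold ar
  rw [e]

/-- the sum of `area ^ k * g (width, height)` over loops -/
theorem loop_GM {n : ℕ} (hn : 2 ≤ n) (k : ℕ) (g : ℕ → ℕ → ℝ) :
    ∑ᶠ f ∈ {f : ZMod (2 * n) → ℤ × ℤ | Pool.Agent.H924P.IsLoop (2 * n) f},
      (Pool.Agent.H924P.area (2 * n) f : ℝ) ^ k *
        g (Pool.Agent.H924P.width (2 * n) f) (Pool.Agent.H924P.height (2 * n) f) =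
      ∑ w ∈ KP (2 * n - 1), GM k (fun a b => g a.toNat b.toNat) w := by
  rw [loop_sum hn]
  refine sum_congr rfl fun w hw => ?_
  obtain ⟨h1, h2, h3⟩ := width_word hn hw
  unfold GM
  have hl := (KP_mem hw).2.2
  rw [if_pos (by omega), h3, ← h1, ← h2]
  simp only [Int.toNat_natCast]

/-- the sum of `area ^ k` over loops -/
theorem loop_Gk {n : ℕ} (hn : 2 ≤ n) (k : ℕ) :
    ∑ᶠ f ∈ {f : ZMod (2 * n) → ℤ × ℤ | Pool.Agent.H924P.IsLoop (2 * n) f},
      (Pool.Agent.H924P.area (2 * n) f : ℝ) ^ k = ∑ w ∈ KP (2 * n - 1), Gk1 k w := by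
  rw [loop_sum hn]
  refine sum_congr rfl fun w hw => ?_
  obtain ⟨h1, h2, h3⟩ := width_word hn hw
  unfold Gk1
  have hl := (KP_mem hw).2.2
  rw [if_pos (by omega), h3]

end

end Run7.h106.AC
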