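import Pool.Agent.Run7.h106.AC.PolyFin

/-!
# Analytic continuation: the moments of the width of polygons
-/

set_option autoImplicit false
set_option linter.unusedVariables false

namespace Run7.h106.AC

open Pool.Agent.H976R2 Pool.Agent.H976R2.Dir Finset Filter Topology
open Pool.Agent.N929.EX Pool.Agent.N929.EY Pool.Agent.N929.EZ
open Pool.Agent.N929.AC (Om xx cs Ext om_star s_omg)
open Pool.Agent.H739K (KP ar lp)
open scoped Classical

noncomputable section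

/-- powers of the width -/
def GW (p : ℝ) (w : List Dir) : ℝ :=
  if 3 ≤ w.length then (((mxx w - mnx w : ℤ) : ℝ)) ^ p else 0

theorem wd_nonneg (w : List Dir) : (0 : ℝ) ≤ ((mxx w - mnx w : ℤ) : ℝ) := by
  have := (ext_nonneg w).1
  exact_mod_cast (by omega : 0 ≤ mxx w - mnx w)

theorem GW_nonneg (p : ℝ) (w : List Dir) : 0 ≤ GW p w := by
  unfold GW
  have := wd_nonneg w
  split_ifs
  · positivity
  · exact le_rfl

theorem wd_one {w : List Dir} (hw : w ∈ SW w.length) (hs : sq w = 1) (h3 : 3 ≤ w.length) :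
    (1 : ℝ) ≤ ((mxx w - mnx w : ℤ) : ℝ) := by
  have := wid_pos hw hs h3
  exact_mod_cast (by omega : 1 ≤ mxx w - mnx w)

theorem GW_le {p : ℝ} (hp : 0 ≤ p) (n : ℕ) (w : List Dir) (hw : w ∈ KP n) :
    |GW p w| ≤ 1 * ((n : ℝ) + 1) ^ ⌈p⌉₊ := by
  obtain ⟨hwn, hs, hl⟩ := KP_mem hw
  rw [abs_of_nonneg (GW_nonneg p w), one_mul]
  unfold GW
  split_ifs with h3
  · refine rpow_poly (wd_one (by rw [hl]; exact hwn) hs h3) hp ?_
    have h1 := (ext_le w).1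
    have : ((mxx w - mnx w : ℤ) : ℝ) ≤ ((w.length : ℤ) : ℝ) := by exact_mod_cast h1
    rw [hl] at this
    push_cast at this ⊢
    linarith
  · positivity

theorem wid_hp {p : ℝ} (hp : 0 ≤ p) :
    Hp (GW p) (fun n => 9 * 3 ^ p * ∑ w ∈ KP n, GW p w) := by
  intro L hL st fl hfl
  have hfl' : ∀ w, Em L 0 0 w → ∀ U ⊆ Sl L 0 0 w, (((mxx (fl w U) - mnx (fl w U) : ℤ) : ℝ)) =
      ((mxx w - mnx w : ℤ) : ℝ) + (if (∃ q ∈ U, q.1 = mxx w) then 1 else 0) +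
        (if (∃ q ∈ U, q.1 + 1 = mnx w) then 1 else 0) := by
    intro w hw U hU
    obtain ⟨a1, a2, -⟩ := Pool.Agent.N426.EZ.xt L hL 0 0 st fl hfl w hw U hU
    rw [a1, a2]
    push_cast
    ring
  refine ⟨fun w => |(((mxx w - mnx w : ℤ) : ℝ)) ^ p| + 4 * |(((mxx w - mnx w : ℤ) : ℝ) + 1) ^ p| +
    4 * |(((mxx w - mnx w : ℤ) : ℝ) + 2) ^ p|, fun w => by positivity,
    fun w hw hs h3 => ?_, fun n hn => ?_⟩
  · refine (Rp.two_hits (E := Sl L 0 0 w) (fun q => q.1 = mxx w)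
      (fun q => q.1 + 1 = mnx w) (fun y => y ^ p) _).congr (fun U hU => ?_)
    unfold GW
    rw [if_pos (by rw [hfl.fl_len w U hw hU]; omega), hfl' w hw U hU]
    congr!
  · beta_reduce
    rw [mul_sum]
    refine sum_le_sum fun w hw => ?_
    obtain ⟨hwn, hs, hl⟩ := KP_mem hw
    have hw' : w ∈ SW w.length := by rw [hl]; exact hwn
    split_ifs with h3
    · obtain ⟨e5, e1, e3, e2⟩ := cl_st hfl hw'
      have h4 := hfl' (st w) e1 _ e3
      rw [e2] at h4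
      have h5 : ((mxx (st w) - mnx (st w) : ℤ) : ℝ) ≤ ((mxx w - mnx w : ℤ) : ℝ) := by
        rw [h4]
        split_ifs <;> linarith
      unfold GW
      rw [if_pos (by omega)]
      exact rpow_near (wd_one e1.2.1 (e5.2 hs) h3) h5 hp
    · exact mul_nonneg (by positivity) (GW_nonneg p w)

/-- analytic continuation for the moments of the width -/
theorem wid_ac {c : ℝ} (hc : 0 < c) (hc4 : c ≤ 1 / 4) (h : PM c) {p : ℝ} (hp : 0 ≤ p) :
    ∃ K : ℝ, 0 < K ∧ ∃ f : ℂ → ℂ, Ext c H981.mu 2 (fun n => ∑ w ∈ KP n, GW p w) f ∧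
      ∀ z ∈ Om c H981.mu 2, z ≠ 0 → cs 2 z < 1 →
        ‖f z‖ ≤ K * (1 + ‖f (xx c H981.mu 2 z : ℂ)‖) := by
  have h3p : (1 : ℝ) ≤ 3 ^ p := Real.one_le_rpow (by norm_num) hp
  obtain ⟨C, hC, h'⟩ := h (9 * 3 ^ p) ⌈p⌉₊ (by positivity)
  have hu : ∀ n, 0 ≤ ∑ w ∈ KP n, GW p w := fun n => sum_nonneg fun w _ => GW_nonneg p w
  obtain ⟨f, f1, f2⟩ := h' (GW p) (fun n => 9 * 3 ^ p * ∑ w ∈ KP n, GW p w)
    (fun w hw => by unfold GW; rw [if_neg hw])
    (fun n w hw => (GW_le hp n w hw).trans (by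
      have : (0 : ℝ) ≤ ((n : ℝ) + 1) ^ ⌈p⌉₊ := by positivity
      nlinarith))
    (fun n => by
      rw [sum_congr rfl fun w _ => abs_of_nonneg (GW_nonneg p w)]
      have := hu n
      nlinarith)
    (fun n => by
      have h1 : ∑ w ∈ KP n, GW p w ≤ ((KP n).card : ℝ) * (1 * ((n : ℝ) + 1) ^ ⌈p⌉₊) := by
        rw [← nsmul_eq_mul]
        exact sum_le_card_nsmul _ _ _ fun w hw => (le_abs_self _).trans (GW_le hp n w hw)
      calc 9 * 3 ^ p * ∑ w ∈ KP n, GW p w ≤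
            9 * 3 ^ p * (((KP n).card : ℝ) * (1 * ((n : ℝ) + 1) ^ ⌈p⌉₊)) :=
            mul_le_mul_of_nonneg_left h1 (by positivity)
        _ ≤ 9 * 3 ^ p * (((SW n).card : ℝ) * (1 * ((n : ℝ) + 1) ^ ⌈p⌉₊)) := by
            have := KP_le n
            gcongr
        _ = _ := by ring)
    (wid_hp hp)
  refine ⟨max C (9 * 3 ^ p), lt_max_of_lt_left hC, f, f1, fun z hz hz0 hz1 => ?_⟩
  obtain ⟨-, h2⟩ := f2 z hz hz0 hz1
  rw [at_xx hc hc4 hu f1 hz1 (9 * 3 ^ p) (by positivity)] at h2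
  have h3 := norm_nonneg (f (xx c H981.mu 2 z : ℂ))
  have h4 := le_max_left C (9 * 3 ^ p)
  have h5 := le_max_right C (9 * 3 ^ p)
  nlinarith

/-- the sum of `width ^ p` over loops -/
theorem loop_GW {n : ℕ} (hn : 2 ≤ n) (p : ℝ) :
    ∑ᶠ f ∈ {f : ZMod (2 * n) → ℤ × ℤ | Pool.Agent.H924P.IsLoop (2 * n) f},
      (Pool.Agent.H924P.width (2 * n) f : ℝ) ^ p = ∑ w ∈ KP (2 * n - 1), GW p w := by
  rw [loop_sum hn]
  refine sum_congr rfl fun w hw => ?_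
  obtain ⟨h1, h2, h3⟩ := width_word hn hw
  unfold GW
  have hl := (KP_mem hw).2.2
  rw [if_pos (by omega)]
  congr 1
  exact_mod_cast h1

/-- from the bound for `f` to the bound for the primitive -/
theorem deriv_bound {c : ℝ} (hc : 0 < c) (hc4 : c ≤ 1 / 4) {f F : ℂ → ℂ} {K : ℝ} (hK : 0 ≤ K)
    (F1 : ∀ z ∈ Om c H981.mu 2, HasDerivAt F (f z / 2) z)
    (f2 : ∀ z ∈ Om c H981.mu 2, z ≠ 0 → cs 2 z < 1 →
        ‖f z‖ ≤ K * (1 + ‖f (xx c H981.mu 2 z : ℂ)‖)) :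
    ∀ z ∈ Om c H981.mu 2, z ≠ 0 → cs 2 z < 1 →
      ‖deriv F z‖ ≤ K * (1 + ‖deriv F (xx c H981.mu 2 z : ℂ)‖) := by
  intro z hz hz0 hz1
  have hμ : 1 ≤ H981.mu := by linarith [Pool.Agent.H739K.mu_ge]
  have hμ0 : 0 < H981.mu := by linarith
  have hx : H981.mu * xx c H981.mu 2 z = 1 - c * (1 - cs 2 z) := by
    unfold xx
    field_simp
  have habs := abs_le.1 (cs_abs 2 z)
  have hx0 : 0 < xx c H981.mu 2 z := by
    unfold xx
    refine div_pos ?_ hμ0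
    nlinarith
  have hxm : (xx c H981.mu 2 z : ℂ) ∈ Om c H981.mu 2 := by
    refine (dom_facts hc).2.2.1 _ ?_
    rw [Complex.norm_real, Real.norm_of_nonneg hx0.le, hx]
    nlinarith
  rw [(F1 z hz).deriv, (F1 _ hxm).deriv]
  have h1 := f2 z hz hz0 hz1
  rw [norm_div, norm_div, Complex.norm_ofNat]
  have h3 := norm_nonneg (f (xx c H981.mu 2 z : ℂ))
  calc ‖f z‖ / 2 ≤ K * (1 + ‖f (xx c H981.mu 2 z : ℂ)‖) / 2 := by linarith
    _ ≤ K * (1 + ‖f (xx c H981.mu 2 z : ℂ)‖ / 2) := by nlinarith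

end

end Run7.h106.AC
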